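import Mathlib

/-!
# Finite graphs with parallel edges, minors, planarity, the edge-Erdős–Pósa property

Definitions used in the statement about condensed walls.
-/

namespace Pool.Agent.Helper61.EP

/-- A finite graph; parallel edges are allowed, loops are not. -/
structure MGraph : Type 1 where
  /-- vertices -/
  V : Type
  /-- edges -/
  E : Type
  finV : Finite V
  finE : Finite E
  /-- the two ends of an edge -/
  ends : E → Sym2 V
  loopless : ∀ e, ¬ (ends e).IsDiag

/-- One step along an edge of `G` inside the vertex set `S`. -/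
def StepIn (G : MGraph) (S : Set G.V) (u v : G.V) : Prop :=
  u ∈ S ∧ v ∈ S ∧ ∃ e : G.E, G.ends e = s(u, v)

/-- The vertex set `S` is nonempty and induces a connected subgraph of `G`. -/
def ConnectedOn (G : MGraph) (S : Set G.V) : Prop :=
  S.Nonempty ∧ ∀ u ∈ S, ∀ v ∈ S, Relation.ReflTransGen (StepIn G S) u v

/-- `H` is a minor of `G`: there are pairwise disjoint nonempty connected vertex sets (branch sets)
`S x` of `G`, one for each vertex `x` of `H`, and an injection `f` from the edges of `H` to the
edges of `G` such that `f e` joins `S x` and `S y` whenever `e` joins `x` and `y`. -/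
def IsMinor (H G : MGraph) : Prop :=
  ∃ (S : H.V → Set G.V) (f : H.E → G.E),
    (∀ x, ConnectedOn G (S x)) ∧ (∀ x y, x ≠ y → Disjoint (S x) (S y)) ∧
    Function.Injective f ∧
    ∀ e, ∃ x y u v, H.ends e = s(x, y) ∧ u ∈ S x ∧ v ∈ S y ∧ G.ends (f e) = s(u, v)

/-- An embedding of `K` in `G`. Its image is a subgraph of `G` isomorphic to `K`, and each subgraph
of `G` isomorphic to `K` arises in this way. -/
structure Emb (K G : MGraph) where
  fV : K.V → G.V
  fE : K.E → G.E
  injV : Function.Injective fV
  injE : Function.Injective fE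
  comm : ∀ e, G.ends (fE e) = (K.ends e).map fV

/-- The family `F` has the edge-Erdős–Pósa property: for some `f : ℕ → ℝ`, every graph `G` and
every `k`, either `G` has `k` pairwise edge-disjoint subgraphs each isomorphic to a member of `F`,
or some set `X` of at most `f k` edges of `G` meets the edge set of every subgraph of `G` isomorphic
to a member of `F`. -/
def EdgeErdosPosa (F : MGraph → Prop) : Prop :=
  ∃ f : ℕ → ℝ, ∀ (G : MGraph) (k : ℕ),
    (∃ (K : Fin k → MGraph) (φ : ∀ i, Emb (K i) G), (∀ i, F (K i)) ∧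
      ∀ i j, i ≠ j → Disjoint (Set.range (φ i).fE) (Set.range (φ j).fE)) ∨
    (∃ X : Set G.E, (X.ncard : ℝ) ≤ f k ∧
      ∀ K : MGraph, F K → ∀ φ : Emb K G, ∃ e, φ.fE e ∈ X)

/-- `G` is connected (and nonempty). -/
def MGraph.IsConnected (G : MGraph) : Prop := ConnectedOn G Set.univ

/-- `G` is planar: it has a drawing in the plane in which the vertices are distinct points and the
edges are arcs joining their ends, the interior of an arc containing no vertex and no point of
another arc. -/
def MGraph.IsPlanar (G : MGraph) : Prop :=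
  ∃ (p : G.V → ℝ × ℝ) (γ : G.E → ℝ → ℝ × ℝ),
    Function.Injective p ∧
    (∀ e, ContinuousOn (γ e) (Set.Icc 0 1) ∧ Set.InjOn (γ e) (Set.Icc 0 1) ∧
      (G.ends e).map p = s(γ e 0, γ e 1)) ∧
    (∀ e, ∀ t ∈ Set.Ioo (0 : ℝ) 1, ∀ v, γ e t ≠ p v) ∧
    (∀ e e', e ≠ e' → ∀ t ∈ Set.Ioo (0 : ℝ) 1, ∀ t' ∈ Set.Ioo (0 : ℝ) 1, γ e t ≠ γ e' t')

/-! ### Condensed walls -/

/-- Vertices of the condensed wall of size `r`: `u j i` stands for `u^{j+1}_{i+1}`, `z i` for `z^i`,
and `a`, `b` are the two further vertices. -/
inductive WV (r : ℕ) : Type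
  | u (j : Fin r) (i : Fin (2 * r))
  | z (i : Fin (r + 1))
  | a
  | b
  deriving DecidableEq, Fintype

/-- Edges of the condensed wall of size `r` (here `j` and `i` are `0`-based):
* `row j i` is the edge `u^{j+1}_{i+1} u^{j+1}_{i+2}` of the path `P^{j+1}`;
* `up j i` is the edge `z^{j} u^{j+1}_{2(i+1)}`;
* `down j i` is the edge `z^{j+1} u^{j+1}_{2(i+1)-1}`;
* `spine i` is the edge `z^{i} z^{i+1}`;
* `left j` is the edge `a u^{j+1}_1`, and `right j` is the edge `b u^{j+1}_{2r}`. -/
inductive WE (r : ℕ) : Type
  | row (j : Fin r) (i : Fin (2 * r - 1))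
  | up (j i : Fin r)
  | down (j i : Fin r)
  | spine (i : Fin r)
  | left (j : Fin r)
  | right (j : Fin r)
  deriving DecidableEq, Fintype

/-- One end of an edge of the condensed wall. -/
def wEnd1 (r : ℕ) : WE r → WV r
  | .row j i => .u j ⟨i.val, by omega⟩
  | .up j _ => .z j.castSucc
  | .down j _ => .z j.succ
  | .spine i => .z i.castSucc
  | .left _ => .a
  | .right _ => .b

/-- The other end of an edge of the condensed wall. -/
def wEnd2 (r : ℕ) : WE r → WV r
  | .row j i => .u j ⟨i.val + 1, by omega⟩
  | .up j i => .u j ⟨2 * i.val + 1, by omega⟩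
  | .down j i => .u j ⟨2 * i.val, by omega⟩
  | .spine i => .z i.succ
  | .left j => .u j ⟨0, by have := j.isLt; omega⟩
  | .right j => .u j ⟨2 * r - 1, by have := j.isLt; omega⟩

/-- The condensed wall of size `r`. -/
def condensedWall (r : ℕ) : MGraph where
  V := WV r
  E := WE r
  finV := inferInstance
  finE := inferInstance
  ends e := s(wEnd1 r e, wEnd2 r e)
  loopless := by
    intro e
    rw [Sym2.mk_isDiag_iff]
    cases e with
    | row j i => simp [wEnd1, wEnd2]
    | up j i => simp [wEnd1, wEnd2]
    | down j i => simp [wEnd1, wEnd2]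
    | spine i =>
      simp only [wEnd1, wEnd2, WV.z.injEq]
      exact (Fin.castSucc_lt_succ (i := i)).ne
    | left j => simp [wEnd1, wEnd2]
    | right j => simp [wEnd1, wEnd2]

end Pool.Agent.Helper61.EP
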