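import Pool.Agent.Helper61.EP.Host

/-!
# The host graph: structure of a model of `H`
-/

namespace Pool.Agent.Helper61.EP

variable {n q m : ℕ} {E' : Set (GE n q m)}

theorem Sgl.mono {S T S' T' : Set (GV n q)} (h : Sgl E' S T) (hS : S ⊆ S') (hT : T ⊆ T') :
    Sgl E' S' T' := by
  obtain ⟨e, he, h⟩ := h
  refine ⟨e, he, ?_⟩
  rcases h with ⟨h1, h2⟩ | ⟨h1, h2⟩
  · exact Or.inl ⟨hS h1, hT h2⟩
  · exact Or.inr ⟨hT h1, hS h2⟩

theorem three_of_five (h : Fin 5 → Prop) (hh : ∀ i, h i ∨ h (i + 1)) :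
    ∃ x y t : Fin 5, x ≠ y ∧ x ≠ t ∧ y ≠ t ∧ h x ∧ h y ∧ h t := by
  classical
  have key : ∀ g : Fin 5 → Bool, (∀ i, g i = true ∨ g (i + 1) = true) →
      ∃ x y t : Fin 5, x ≠ y ∧ x ≠ t ∧ y ≠ t ∧ g x = true ∧ g y = true ∧ g t = true := by
    decide
  obtain ⟨x, y, t, h1, h2, h3, h4, h5, h6⟩ := key (fun i => decide (h i)) (by
    intro i
    simpa using hh i)
  exact ⟨x, y, t, h1, h2, h3, by simpa using h4, by simpa using h5, by simpa using h6⟩

theorem four_points' {β p r t : ℕ} (_ : β ≠ p) (_ : β ≠ r) (_ : β ≠ t) (h4 : p ≠ r)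
    (h5 : p ≠ t) (h6 : r ≠ t)
    (a1 : (min p β ≤ r ∧ r < max p β) ↔ (min p β ≤ t ∧ t < max p β))
    (a2 : (min r β ≤ p ∧ p < max r β) ↔ (min r β ≤ t ∧ t < max r β))
    (a3 : (min t β ≤ p ∧ p < max t β) ↔ (min t β ≤ r ∧ r < max t β)) : False := by
  omega

section Cycle

variable {W : Fin 5 → Set (GV n q)}

/-- the union of the branch sets of the cycle except the one of `x` -/
def U (W : Fin 5 → Set (GV n q)) (x : Fin 5) : Set (GV n q) :=
  ((W (x + 1) ∪ W (x + 2)) ∪ W (x + 3)) ∪ W (x + 4)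

theorem U_conn (hW : ∀ i, ConnE E' (W i)) (aW : ∀ i, Dbl E' (W i) (W (i + 1))) (x : Fin 5) :
    ConnE E' (U W x) := by
  have e1 : x + 1 + 1 = x + 2 := by omega
  have e2 : x + 2 + 1 = x + 3 := by omega
  have e3 : x + 3 + 1 = x + 4 := by omega
  have a1 := (aW (x + 1)).sgl
  have a2 := (aW (x + 2)).sgl
  have a3 := (aW (x + 3)).sgl
  rw [e1] at a1
  rw [e2] at a2
  rw [e3] at a3
  refine ((((hW (x + 1)).union (hW (x + 2)) a1).union (hW (x + 3)) ?_).union (hW (x + 4)) ?_)
  · exact a2.mono Set.subset_union_right subset_rfl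
  · exact a3.mono Set.subset_union_right subset_rfl

theorem mem_U {x y : Fin 5} (hxy : y ≠ x) {v : GV n q} (hv : v ∈ W y) : v ∈ U W x := by
  have h5 : ∀ x y : Fin 5, y ≠ x → y = x + 1 ∨ y = x + 2 ∨ y = x + 3 ∨ y = x + 4 := by
    decide
  rcases h5 x y hxy with rfl | rfl | rfl | rfl
  · exact Or.inl (Or.inl (Or.inl hv))
  · exact Or.inl (Or.inl (Or.inr hv))
  · exact Or.inl (Or.inr hv)
  · exact Or.inr hv

theorem of_mem_U {x : Fin 5} {v : GV n q} (hv : v ∈ U W x) : ∃ y, y ≠ x ∧ v ∈ W y := by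
  have h1 : ∀ x : Fin 5, x + 1 ≠ x ∧ x + 2 ≠ x ∧ x + 3 ≠ x ∧ x + 4 ≠ x := by decide
  obtain ⟨n1, n2, n3, n4⟩ := h1 x
  rcases hv with ((h | h) | h) | h
  · exact ⟨_, n1, h⟩
  · exact ⟨_, n2, h⟩
  · exact ⟨_, n3, h⟩
  · exact ⟨_, n4, h⟩

theorem exists_three_hubs (hW : ∀ i, ConnE E' (W i)) (nW : ∀ i, Nk (W i))
    (dW : ∀ i j, i ≠ j → Disjoint (W i) (W j)) (aW : ∀ i, Dbl E' (W i) (W (i + 1))) :
    ∃ (x y t : Fin 5) (p r s : Fin (n + 6)), x ≠ y ∧ x ≠ t ∧ y ≠ t ∧ GV.z p ∈ W x ∧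
      GV.z r ∈ W y ∧ GV.z s ∈ W t := by
  have h : ∀ i, (∃ x, GV.z x ∈ W i) ∨ (∃ x, GV.z x ∈ W (i + 1)) := by
    intro i
    by_contra hcon
    push Not at hcon
    have hne : ∀ i : Fin 5, i ≠ i + 1 := by decide
    exact no_dbl (hW i) (hW (i + 1)) (dW _ _ (hne i)) (nW _) (nW _) hcon.1 hcon.2 (aW i)
  obtain ⟨x, y, t, h1, h2, h3, ⟨p, hp⟩, ⟨r, hr⟩, ⟨s, hs⟩⟩ :=
    three_of_five (fun i => ∃ x, GV.z x ∈ W i) h
  exact ⟨x, y, t, p, r, s, h1, h2, h3, hp, hr, hs⟩

/-- all hubs are used by the doubled cycle -/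
theorem cycle_hubs (hW : ∀ i, ConnE E' (W i)) (nW : ∀ i, Nk (W i))
    (dW : ∀ i j, i ≠ j → Disjoint (W i) (W j)) (aW : ∀ i, Dbl E' (W i) (W (i + 1)))
    (β : Fin (n + 6)) : ∃ i, GV.z β ∈ W i := by
  by_contra hcon
  push Not at hcon
  obtain ⟨x, y, t, p, r, s, hxy, hxt, hyt, hp, hr, hs⟩ := exists_three_hubs hW nW dW aW
  have hne : ∀ {i j : Fin 5} {a b : Fin (n + 6)}, i ≠ j → GV.z a ∈ W i → GV.z b ∈ W j →
      a.val ≠ b.val := by
    intro i j a b hij ha hb h
    have : a = b := Fin.ext h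
    subst this
    exact Set.disjoint_left.mp (dW i j hij) ha hb
  have hneβ : ∀ {i : Fin 5} {a : Fin (n + 6)}, GV.z a ∈ W i → β.val ≠ a.val := by
    intro i a ha h
    have : β = a := Fin.ext h
    subst this
    exact hcon i ha
  have hβU : ∀ x, GV.z β ∉ U W x := fun x h => by
    obtain ⟨y, _, hy⟩ := of_mem_U h
    exact hcon y hy
  have hout : ∀ {i : Fin 5} {a : Fin (n + 6)}, GV.z a ∈ W i → GV.z a ∉ U W i := by
    intro i a ha h
    obtain ⟨y, hy, hy2⟩ := of_mem_U h
    exact Set.disjoint_left.mp (dW y i hy) hy2 ha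
  have hNU : ∀ x, GV.a ∉ U W x := fun x h => by
    obtain ⟨y, _, hy⟩ := of_mem_U h
    exact (nW y).1 hy
  exact four_points' (hneβ hp) (hneβ hr) (hneβ hs) (hne hxy hp hr) (hne hxt hp hs)
    (hne hyt hr hs)
    (sep_hubs (U_conn hW aW x) (hNU x) (hout hp) (hβU x) (mem_U hxy.symm hr) (mem_U hxt.symm hs))
    (sep_hubs (U_conn hW aW y) (hNU y) (hout hr) (hβU y) (mem_U hxy hp) (mem_U hyt.symm hs))
    (sep_hubs (U_conn hW aW t) (hNU t) (hout hs) (hβU t) (mem_U hxt hp) (mem_U hyt hr))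

/-- all levels are used by the doubled cycle -/
theorem cycle_levels (hW : ∀ i, ConnE E' (W i)) (nW : ∀ i, Nk (W i))
    (dW : ∀ i j, i ≠ j → Disjoint (W i) (W j)) (aW : ∀ i, Dbl E' (W i) (W (i + 1)))
    (β : Fin (n + 6)) : GE.sp β ∈ E' ∨ ∃ i, GE.row β i ∈ E' ∧
      (∃ y, e1 (GE.row β i : GE n q m) ∈ W y) ∧ (∃ y, e2 (GE.row β i : GE n q m) ∈ W y) := by
  by_contra hcon
  push Not at hcon
  obtain ⟨hsp, hrow⟩ := hcon
  obtain ⟨x, y, t, p, r, s, hxy, hxt, hyt, hp, hr, hs⟩ := exists_three_hubs hW nW dW aW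
  have hne : ∀ {i j : Fin 5} {a b : Fin (n + 6)}, i ≠ j → GV.z a ∈ W i → GV.z b ∈ W j →
      a.val ≠ b.val := by
    intro i j a b hij ha hb h
    have : a = b := Fin.ext h
    subst this
    exact Set.disjoint_left.mp (dW i j hij) ha hb
  have hrowU : ∀ x i, GE.row β i ∈ E' → ¬ (e1 (GE.row β i : GE n q m) ∈ U W x ∧
      e2 (GE.row β i : GE n q m) ∈ U W x) := by
    intro x i hi h
    obtain ⟨y, _, hy⟩ := of_mem_U h.1
    obtain ⟨y', _, hy'⟩ := of_mem_U h.2
    exact hrow i hi ⟨y, hy⟩ y' hy'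
  have hout : ∀ {i : Fin 5} {a : Fin (n + 6)}, GV.z a ∈ W i → GV.z a ∉ U W i := by
    intro i a ha h
    obtain ⟨y, hy, hy2⟩ := of_mem_U h
    exact Set.disjoint_left.mp (dW y i hy) hy2 ha
  have hNU : ∀ x, GV.a ∉ U W x := fun x h => by
    obtain ⟨y, _, hy⟩ := of_mem_U h
    exact (nW y).1 hy
  have k1 := sep_level (U_conn hW aW x) (hNU x) (hout hp) hsp (hrowU x) (mem_U hxy.symm hr)
    (mem_U hxt.symm hs)
  have k2 := sep_level (U_conn hW aW y) (hNU y) (hout hr) hsp (hrowU y) (mem_U hxy hp)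
    (mem_U hyt.symm hs)
  have k3 := sep_level (U_conn hW aW t) (hNU t) (hout hs) hsp (hrowU t) (mem_U hxt hp)
    (mem_U hyt hr)
  have n1 := hne hxy hp hr
  have n2 := hne hxt hp hs
  have n3 := hne hyt hr hs
  omega

end Cycle

/-! ### The part at `a` -/

/-- a connected set avoiding `a` lies in the path of the `al i` or avoids it -/
theorem al_or {S : Set (GV n q)} (hS : ConnE E' S) (ha : GV.a ∉ S) :
    (∀ v ∈ S, ∃ i, v = GV.al i) ∨ ∀ i, GV.al i ∉ S := by
  by_cases h : ∃ i, GV.al i ∈ S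
  · left
    obtain ⟨i, hi⟩ := h
    intro v hv
    have key := hS.color (fun v => ∃ i, v = GV.al i) ?_ hi hv
    · exact key.mp ⟨i, rfl⟩
    · intro e _ h1 h2
      cases e with
      | aal i k => exact absurd h1 ha
      | alal i k => simp [e1, e2]
      | row j' i => simp [e1, e2]
      | lo j' i => simp [e1, e2]
      | hi j' i => simp [e1, e2]
      | sp j' => simp [e1, e2]
      | lf j' => exact absurd h1 ha
      | rt j' => exact absurd h1 ha
  · right
    push Not at h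
    exact h

/-- a set in the `al` path adjacent to a set avoiding `a`: the latter is in the `al` path too -/
theorem al_adj {S T : Set (GV n q)} (hS : ∀ v ∈ S, ∃ i, v = GV.al i) (hT : ConnE E' T)
    (ha : GV.a ∉ T) (h : Sgl E' S T) : ∀ v ∈ T, ∃ i, v = GV.al i := by
  rcases al_or hT ha with h1 | h1
  · exact h1
  · exfalso
    obtain ⟨e, _, he⟩ := h
    rcases he with ⟨h2, h3⟩ | ⟨h2, h3⟩
    · obtain ⟨i, hi⟩ := hS _ h2
      cases e with
      | alal i k => exact h1 _ h3
      | aal i k => simp [e1] at hi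
      | row j' i => simp [e1] at hi
      | lo j' i => simp [e1] at hi
      | hi j' i => simp [e1] at hi
      | sp j' => simp [e1] at hi
      | lf j' => simp [e1] at hi
      | rt j' => simp [e1] at hi
    · obtain ⟨i, hi⟩ := hS _ h3
      cases e with
      | alal i k => exact h1 _ h2
      | aal i k => exact ha h2
      | row j' i => simp [e2] at hi
      | lo j' i => simp [e2] at hi
      | hi j' i => simp [e2] at hi
      | sp j' => simp [e2] at hi
      | lf j' => simp [e2] at hi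
      | rt j' => simp [e2] at hi

/-- connected subsets of the `al` path are intervals -/
theorem al_interval {S : Set (GV n q)} (hS : ConnE E' S) (hj : ∀ v ∈ S, ∃ i, v = GV.al i)
    {i1 i2 k : Fin 5} (h1 : GV.al i1 ∈ S)
    (h2 : GV.al i2 ∈ S) (hk1 : i1 ≤ k) (hk2 : k ≤ i2) : GV.al k ∈ S := by
  by_contra hk
  have hne1 : i1 ≠ k := fun h => hk (h ▸ h1)
  have hne2 : i2 ≠ k := fun h => hk (h ▸ h2)
  have key := hS.color (fun v => match v with
    | .al i => i.val < k.val
    | _ => False) ?_ h1 h2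
  · simp only at key
    have a1 : i1.val < k.val := lt_of_le_of_ne hk1 (fun h => hne1 (Fin.ext h))
    have a2 : k.val ≤ i2.val := hk2
    omega
  · clear h1 h2
    intro e _ h1 h2
    cases e with
    | alal i l =>
      simp only [e1, e2, Fin.val_castSucc, Fin.val_succ] at h1 h2 ⊢
      have hik : i.val + 1 ≠ k.val := by
        intro h3
        apply hk
        have h4 : i.succ = k := Fin.ext h3
        rw [← h4]
        exact h2
      omega
    | aal i l => obtain ⟨i', h⟩ := hj _ h1; simp [e1] at h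
    | row j' i => obtain ⟨i', h⟩ := hj _ h1; simp [e1] at h
    | lo j' i => obtain ⟨i', h⟩ := hj _ h1; simp [e1] at h
    | hi j' i => obtain ⟨i', h⟩ := hj _ h1; simp [e1] at h
    | sp j' => obtain ⟨i', h⟩ := hj _ h1; simp [e1] at h
    | lf j' => obtain ⟨i', h⟩ := hj _ h1; simp [e1] at h
    | rt j' => obtain ⟨i', h⟩ := hj _ h1; simp [e1] at h

/-- an edge between two subsets of the `al` path -/
theorem joins_al {S T : Set (GV n q)} (hS : ∀ v ∈ S, ∃ i, v = GV.al i)
    (hT : ∀ v ∈ T, ∃ i, v = GV.al i) (h : Sgl E' S T) :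
    (∃ i : Fin 4, GV.al i.castSucc ∈ S ∧ GV.al i.succ ∈ T) ∨
    (∃ i : Fin 4, GV.al i.castSucc ∈ T ∧ GV.al i.succ ∈ S) := by
  obtain ⟨e, _, he⟩ := h
  have hc : (∃ i, e1 e = GV.al i) ∧ (∃ i, e2 e = GV.al i) := by
    rcases he with ⟨h1, h2⟩ | ⟨h1, h2⟩
    · exact ⟨hS _ h1, hT _ h2⟩
    · exact ⟨hT _ h1, hS _ h2⟩
  cases e with
  | alal i l =>
    rcases he with ⟨h1, h2⟩ | ⟨h1, h2⟩
    · exact Or.inl ⟨i, h1, h2⟩
    · exact Or.inr ⟨i, h1, h2⟩
  | aal i l => simp [e1] at hc
  | row j' i => simp [e1] at hc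
  | lo j' i => simp [e1] at hc
  | hi j' i => simp [e1] at hc
  | sp j' => simp [e1] at hc
  | lf j' => simp [e1] at hc
  | rt j' => simp [e1] at hc

/-- no set in the `al` path is adjacent to three disjoint sets in the `al` path -/
theorem no_three_al {S T1 T2 T3 : Set (GV n q)} (hS : ConnE E' S)
    (hSa : ∀ v ∈ S, ∃ i, v = GV.al i) (h1 : ∀ v ∈ T1, ∃ i, v = GV.al i)
    (h2 : ∀ v ∈ T2, ∃ i, v = GV.al i) (h3 : ∀ v ∈ T3, ∃ i, v = GV.al i)
    (d1 : Disjoint S T1) (d2 : Disjoint S T2) (d3 : Disjoint S T3)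
    (d12 : Disjoint T1 T2) (d13 : Disjoint T1 T3) (d23 : Disjoint T2 T3)
    (a1 : Sgl E' S T1) (a2 : Sgl E' S T2) (a3 : Sgl E' S T3) : False := by
  have R : ∀ {T T' : Set (GV n q)}, Disjoint S T → Disjoint S T' → Disjoint T T' →
      (∃ i : Fin 4, GV.al i.castSucc ∈ S ∧ GV.al i.succ ∈ T) →
      (∃ i : Fin 4, GV.al i.castSucc ∈ S ∧ GV.al i.succ ∈ T') → False := by
    intro T T' d d' dd ⟨i, hi1, hi2⟩ ⟨i', hi1', hi2'⟩
    rcases lt_trichotomy i i' with hlt | heq | hlt
    · refine Set.disjoint_left.mp d (al_interval hS hSa hi1 hi1' ?_ ?_) hi2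
      · exact Fin.castSucc_lt_succ.le
      · have : i.val < i'.val := hlt
        rw [Fin.le_def]
        simp only [Fin.val_succ, Fin.val_castSucc]
        omega
    · subst heq
      exact Set.disjoint_left.mp dd hi2 hi2'
    · refine Set.disjoint_left.mp d' (al_interval hS hSa hi1' hi1 ?_ ?_) hi2'
      · exact Fin.castSucc_lt_succ.le
      · have : i'.val < i.val := hlt
        rw [Fin.le_def]
        simp only [Fin.val_succ, Fin.val_castSucc]
        omega
  have L : ∀ {T T' : Set (GV n q)}, Disjoint S T → Disjoint S T' → Disjoint T T' →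
      (∃ i : Fin 4, GV.al i.castSucc ∈ T ∧ GV.al i.succ ∈ S) →
      (∃ i : Fin 4, GV.al i.castSucc ∈ T' ∧ GV.al i.succ ∈ S) → False := by
    intro T T' d d' dd ⟨i, hi1, hi2⟩ ⟨i', hi1', hi2'⟩
    rcases lt_trichotomy i i' with hlt | heq | hlt
    · refine Set.disjoint_left.mp d' (al_interval hS hSa hi2 hi2' ?_ ?_) hi1'
      · have : i.val < i'.val := hlt
        rw [Fin.le_def]
        simp only [Fin.val_succ, Fin.val_castSucc]
        omega
      · exact Fin.castSucc_lt_succ.le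
    · subst heq
      exact Set.disjoint_left.mp dd hi1 hi1'
    · refine Set.disjoint_left.mp d (al_interval hS hSa hi2' hi2 ?_ ?_) hi1
      · have : i'.val < i.val := hlt
        rw [Fin.le_def]
        simp only [Fin.val_succ, Fin.val_castSucc]
        omega
      · exact Fin.castSucc_lt_succ.le
  rcases joins_al hSa h1 a1 with k1 | k1 <;> rcases joins_al hSa h2 a2 with k2 | k2 <;>
    rcases joins_al hSa h3 a3 with k3 | k3 <;>
    first
    | exact R d1 d2 d12 k1 k2
    | exact R d1 d3 d13 k1 k3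
    | exact R d2 d3 d23 k2 k3
    | exact L d1 d2 d12 k1 k2
    | exact L d1 d3 d13 k1 k3
    | exact L d2 d3 d23 k2 k3

/-- five disjoint nonempty subsets of the `al` path cover it -/
theorem five_al {V : Fin 5 → Set (GV n q)} (hne : ∀ i, (V i).Nonempty)
    (hal : ∀ i, ∀ v ∈ V i, ∃ k, v = GV.al k) (dVV : ∀ i j, i ≠ j → Disjoint (V i) (V j)) :
    ∀ k, ∃ i, GV.al k ∈ V i := by
  have h1 : ∀ i, ∃ k, GV.al k ∈ V i := by
    intro i
    obtain ⟨v, hv⟩ := hne i
    obtain ⟨k, rfl⟩ := hal i v hv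
    exact ⟨k, hv⟩
  choose σ hσ using h1
  have hinj : Function.Injective σ := by
    intro i j hij
    by_contra hne
    refine Set.disjoint_left.mp (dVV i j hne) (hσ i) ?_
    rw [hij]
    exact hσ j
  have hsurj := Finite.injective_iff_surjective.mp hinj
  intro k
  obtain ⟨i, rfl⟩ := hsurj k
  exact ⟨i, hσ i⟩

/-- the doubled 5-cycle is not a minor of the `al` path -/
theorem no_cycle_al {W : Fin 5 → Set (GV n q)} (hW : ∀ i, ConnE E' (W i))
    (hal : ∀ i, ∀ v ∈ W i, ∃ k, v = GV.al k) (dW : ∀ i j, i ≠ j → Disjoint (W i) (W j))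
    (aW : ∀ i, Sgl E' (W i) (W (i + 1))) : False := by
  have hcov := five_al (fun i => (hW i).1) hal dW
  obtain ⟨i0, hi0⟩ := hcov 0
  have hwit : ∀ i, ∃ k, GV.al k ∈ W i := by
    intro i
    obtain ⟨v, hv⟩ := (hW i).1
    obtain ⟨k, rfl⟩ := hal i v hv
    exact ⟨k, hv⟩
  -- `W i0` contains only `al 0`
  choose σ hσ using hwit
  have hinj : Function.Injective σ := by
    intro i j hij
    by_contra hne
    refine Set.disjoint_left.mp (dW i j hne) (hσ i) ?_
    rw [hij]
    exact hσ j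
  have hsurj := Finite.injective_iff_surjective.mp hinj
  have hone : ∀ i k, GV.al k ∈ W i → k = σ i := by
    intro i k hk
    obtain ⟨i', rfl⟩ := hsurj k
    by_contra hne
    have : i ≠ i' := fun h => hne (by rw [h])
    exact Set.disjoint_left.mp (dW i i' this) hk (hσ i')
  have h0 : σ i0 = 0 := (hone i0 0 hi0).symm
  have key : ∀ y, Sgl E' (W i0) (W y) → GV.al 1 ∈ W y := by
    intro y hy
    rcases joins_al (hal i0) (hal y) hy with ⟨i, h1, h2⟩ | ⟨i, h1, h2⟩
    · have := hone _ _ h1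
      rw [h0] at this
      have h3 : i = 0 := by
        apply Fin.ext
        have := congrArg Fin.val this
        simpa using this
      subst h3
      exact h2
    · have := hone _ _ h2
      rw [h0] at this
      exact absurd this (Fin.succ_ne_zero _)
  have k1 := key (i0 + 1) (aW i0)
  have e4' : ∀ i : Fin 5, i + 4 + 1 = i := by decide
  have e4 := e4' i0
  have k2 := key (i0 + 4) (by
    have := aW (i0 + 4)
    rw [e4] at this
    exact this.symm)
  have hne : ∀ i : Fin 5, i + 1 ≠ i + 4 := by decide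
  exact Set.disjoint_left.mp (dW _ _ (hne i0)) k1 k2

/-- Structure of the fan when no hub is available: `a` belongs to the centre and the `al i` are
used up. -/
theorem fan_at_a {C : Set (GV n q)} {V : Fin 5 → Set (GV n q)} (hC : ConnE E' C)
    (hV : ∀ i, ConnE E' (V i)) (fC : HF C) (fV : ∀ i, HF (V i)) (dCV : ∀ i, Disjoint C (V i))
    (dVV : ∀ i j, i ≠ j → Disjoint (V i) (V j)) (aCV : ∀ i, Dbl E' C (V i))
    (aVV : ∀ i : Fin 4, Dbl E' (V i.castSucc) (V i.succ)) :
    GV.a ∈ C ∧ ∀ k, ∃ i, GV.al k ∈ V i := by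
  -- a member of the fan avoiding `a` and adjacent to another one avoiding `a` is in the `al` path
  have key : ∀ {X Y : Set (GV n q)}, ConnE E' X → ConnE E' Y → HF X → HF Y → Disjoint X Y →
      Dbl E' X Y → GV.a ∉ X → GV.a ∉ Y → ∀ v ∈ X, ∃ i, v = GV.al i := by
    intro X Y hX hY fX fY d a hXa hYa
    rcases al_or hX hXa with h | h
    · exact h
    · exfalso
      rcases al_or hY hYa with h' | h'
      · obtain ⟨x, hx⟩ := hX.1
        obtain ⟨i, rfl⟩ := al_adj h' hX hXa a.sgl.symm x hx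
        exact h i hx
      · exact no_dbl hX hY d ⟨hXa, h⟩ ⟨hYa, h'⟩ fX fY a
  have a_one : ∀ {i j : Fin 5}, i ≠ j → GV.a ∈ V i → GV.a ∉ V j := by
    intro i j hij h h'
    exact Set.disjoint_left.mp (dVV i j hij) h h'
  have ha : GV.a ∈ C := by
    by_contra haC
    -- `C` and the `V i` avoiding `a` lie in the `al` path
    have hex : ∃ i, GV.a ∉ V i := by
      by_cases h0 : GV.a ∈ V 0
      · exact ⟨1, a_one (by decide) h0⟩
      · exact ⟨0, h0⟩
    obtain ⟨i1, hi1⟩ := hex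
    have hCal := key hC (hV i1) fC (fV i1) (dCV i1) (aCV i1) haC hi1
    have hVal : ∀ i, GV.a ∉ V i → ∀ v ∈ V i, ∃ k, v = GV.al k := fun i hi =>
      al_adj hCal (hV i) hi (aCV i).sgl
    have fin : ∀ i j k : Fin 5, i ≠ j → i ≠ k → j ≠ k → GV.a ∉ V i → GV.a ∉ V j → GV.a ∉ V k →
        False := by
      intro i j k hij hik hjk hi hj hk
      exact no_three_al hC hCal (hVal i hi) (hVal j hj) (hVal k hk) (dCV i) (dCV j) (dCV k)
        (dVV i j hij) (dVV i k hik) (dVV j k hjk) (aCV i).sgl (aCV j).sgl (aCV k).sgl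
    by_cases h0 : GV.a ∈ V 0
    · exact fin 1 2 3 (by decide) (by decide) (by decide) (a_one (by decide) h0)
        (a_one (by decide) h0) (a_one (by decide) h0)
    · by_cases h1 : GV.a ∈ V 1
      · exact fin 0 2 3 (by decide) (by decide) (by decide) h0
          (a_one (by decide) h1) (a_one (by decide) h1)
      · by_cases h2 : GV.a ∈ V 2
        · exact fin 0 1 3 (by decide) (by decide) (by decide) h0 h1 (a_one (by decide) h2)
        · exact fin 0 1 2 (by decide) (by decide) (by decide) h0 h1 h2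
  have haV : ∀ i, GV.a ∉ V i := fun i h => Set.disjoint_left.mp (dCV i) ha h
  refine ⟨ha, five_al (fun i => (hV i).1) ?_ dVV⟩
  intro i
  have hcase : (∃ k : Fin 4, i = k.castSucc) ∨ ∃ k : Fin 4, i = k.succ := by
    revert i
    decide
  rcases hcase with ⟨k, rfl⟩ | ⟨k, rfl⟩
  · exact key (hV _) (hV _) (fV _) (fV _) (dVV _ _ (Fin.castSucc_lt_succ.ne)) (aVV k) (haV _)
      (haV _)
  · exact key (hV _) (hV _) (fV _) (fV _) (dVV _ _ (Fin.castSucc_lt_succ.ne').symm.symm)
      (aVV k).symm (haV _) (haV _)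

/-- The triangle through `a`: its two further branch sets lie in a row `j`, and the triangle runs
through the whole row. -/
theorem triangle_row {C P Q : Set (GV n q)} {j : Fin (n + 6)} {k0 : Fin (2 * q + 1)}
    (hC : ConnE E' C) (hP : ConnE E' P) (hQ : ConnE E' Q)
    (fC : HF C) (aC : ∀ i, GV.al i ∉ C) (ha : GV.a ∈ C)
    (hPj : ∀ v ∈ P, ∃ i, v = GV.u j i) (hQj : ∀ v ∈ Q, ∃ i, v = GV.u j i)
    (dCP : Disjoint C P) (dCQ : Disjoint C Q) (dPQ : Disjoint P Q)
    (h0 : GE.row j k0 ∈ E') (hk0 : e1 (GE.row j k0 : GE n q m) ∈ P)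
    (hk1 : e2 (GE.row j k0 : GE n q m) ∈ Q)
    (aCP : Sgl E' C P) (aCQ : Sgl E' C Q) :
    (∀ l, GE.row j l ∈ E') ∧ ∀ i, GV.u j i ∈ C ∪ P ∪ Q := by
  set T := C ∪ P ∪ Q with hT
  have fP : HF P := fun x hx => by obtain ⟨i, h⟩ := hPj _ hx; cases h
  have fQ : HF Q := fun x hx => by obtain ⟨i, h⟩ := hQj _ hx; cases h
  have alT : ∀ i, GV.al i ∉ T := by
    intro i h
    rcases h with (h | h) | h
    · exact aC i h
    · obtain ⟨i', h'⟩ := hPj _ h; cases h'
    · obtain ⟨i', h'⟩ := hQj _ h; cases h'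
  have zT : ∀ i, GV.z i ∉ T := by
    intro i h
    rcases h with (h | h) | h
    · exact fC i h
    · exact fP i h
    · exact fQ i h
  -- colouring argument: a segment of the row that is cut off gives a contradiction
  have cut : ∀ (lo hi : ℕ), 0 < lo → hi ≤ 2 * q → lo ≤ hi + 1 →
      -- the boundary edge on the side away from `k0` is missing
      (∀ l : Fin (2 * q + 1), GE.row j l ∈ E' → l ≠ k0 → e1 (GE.row j l : GE n q m) ∈ T →
        e2 (GE.row j l : GE n q m) ∈ T → (l.val + 1 ≠ lo ∧ l.val ≠ hi)) →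
      ∀ e ∈ E', e ≠ GE.row j k0 → e1 e ∈ T → e2 e ∈ T →
      ((∃ i : Fin (2 * q + 2), e1 e = GV.u j i ∧ lo ≤ i.val ∧ i.val ≤ hi) ↔
        (∃ i : Fin (2 * q + 2), e2 e = GV.u j i ∧ lo ≤ i.val ∧ i.val ≤ hi)) := by
    intro lo hi hlo hhi hlh hmiss e he hne he1 he2
    cases e with
    | aal i k => exact absurd he2 (alT _)
    | alal i k => exact absurd he2 (alT _)
    | row j' l =>
      simp only [e1, e2, GV.u.injEq]
      by_cases hj' : j' = j
      · subst hj'
        have hl := hmiss l he (fun h => hne (by rw [h])) he1 he2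
        constructor
        · rintro ⟨i, ⟨_, rfl⟩, h1, h2⟩
          refine ⟨_, ⟨rfl, rfl⟩, ?_⟩
          simp only at h1 h2 ⊢
          omega
        · rintro ⟨i, ⟨_, rfl⟩, h1, h2⟩
          refine ⟨_, ⟨rfl, rfl⟩, ?_⟩
          simp only at h1 h2 ⊢
          omega
      · constructor
        · rintro ⟨i, ⟨h, _⟩, _⟩
          exact absurd h hj'
        · rintro ⟨i, ⟨h, _⟩, _⟩
          exact absurd h hj'
    | lo j' i => exact absurd he1 (zT _)
    | hi j' i => exact absurd he1 (zT _)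
    | sp j' => exact absurd he1 (zT _)
    | lf j' =>
      simp only [e1, e2, GV.u.injEq]
      constructor
      · rintro ⟨i, h, _⟩
        cases h
      · rintro ⟨i, ⟨_, rfl⟩, h1, h2⟩
        simp only at h1
        omega
    | rt j' =>
      simp only [e1, e2, GV.u.injEq]
      constructor
      · rintro ⟨i, h, _⟩
        cases h
      · rintro ⟨i, ⟨_, rfl⟩, h1, h2⟩
        simp only at h2
        omega
  -- propagate a colouring from `a` to `P` and to `Q`
  have notin : ∀ {X Y : Set (GV n q)}, (Disjoint X P ∨ Disjoint X Q) →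
      X = Y → e1 (GE.row j k0 : GE n q m) ∈ X → e2 (GE.row j k0 : GE n q m) ∈ X → False := by
    intro X Y h _ h1 h2
    rcases h with h | h
    · exact Set.disjoint_left.mp h h1 hk0
    · exact Set.disjoint_left.mp h h2 hk1
  have prop : ∀ (φ : GV n q → Prop),
      (∀ e ∈ E', e ≠ GE.row j k0 → e1 e ∈ T → e2 e ∈ T → (φ (e1 e) ↔ φ (e2 e))) →
      (∀ v ∈ P, (φ GV.a ↔ φ v)) ∧ (∀ v ∈ Q, (φ GV.a ↔ φ v)) := by
    intro φ hφ
    have cC : ∀ x ∈ C, ∀ y ∈ C, (φ x ↔ φ y) := fun x hx y hy =>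
      hC.color φ (fun e he h1 h2 => hφ e he
        (fun h => by subst h; exact Set.disjoint_left.mp dCP h1 hk0)
        (Or.inl (Or.inl h1)) (Or.inl (Or.inl h2))) hx hy
    have cP : ∀ x ∈ P, ∀ y ∈ P, (φ x ↔ φ y) := fun x hx y hy =>
      hP.color φ (fun e he h1 h2 => hφ e he
        (fun h => by subst h; exact Set.disjoint_left.mp dPQ h2 hk1)
        (Or.inl (Or.inr h1)) (Or.inl (Or.inr h2))) hx hy
    have cQ : ∀ x ∈ Q, ∀ y ∈ Q, (φ x ↔ φ y) := fun x hx y hy =>
      hQ.color φ (fun e he h1 h2 => hφ e he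
        (fun h => by subst h; exact Set.disjoint_left.mp dPQ hk0 h1)
        (Or.inr h1) (Or.inr h2)) hx hy
    constructor
    · intro v hv
      obtain ⟨e, he, hj⟩ := aCP
      rcases hj with ⟨h1, h2⟩ | ⟨h1, h2⟩
      · have := hφ e he (fun h => by subst h; exact Set.disjoint_left.mp dCP h1 hk0)
          (Or.inl (Or.inl h1)) (Or.inl (Or.inr h2))
        exact ((cC _ ha _ h1).trans this).trans (cP _ h2 _ hv)
      · have := hφ e he (fun h => by subst h; exact Set.disjoint_left.mp dCQ h2 hk1)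
          (Or.inl (Or.inr h1)) (Or.inl (Or.inl h2))
        exact ((cC _ ha _ h2).trans this.symm).trans (cP _ h1 _ hv)
    · intro v hv
      obtain ⟨e, he, hj⟩ := aCQ
      rcases hj with ⟨h1, h2⟩ | ⟨h1, h2⟩
      · have := hφ e he (fun h => by subst h; exact Set.disjoint_left.mp dCP h1 hk0)
          (Or.inl (Or.inl h1)) (Or.inr h2)
        exact ((cC _ ha _ h1).trans this).trans (cQ _ h2 _ hv)
      · have := hφ e he (fun h => by subst h; exact Set.disjoint_left.mp dCQ h2 hk1)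
          (Or.inr h1) (Or.inl (Or.inl h2))
        exact ((cC _ ha _ h2).trans this.symm).trans (cQ _ h1 _ hv)
  -- below `k0`
  have below : ∀ l : Fin (2 * q + 1), l.val < k0.val →
      GE.row j l ∈ E' ∧ e1 (GE.row j l : GE n q m) ∈ T := by
    intro l hl
    by_contra hcon
    have hk0' := k0.isLt
    have h := (prop (fun v => ∃ i : Fin (2 * q + 2), v = GV.u j i ∧ l.val + 1 ≤ i.val ∧
      i.val ≤ k0.val) (cut (l.val + 1) k0.val (by omega) (by omega) (by omega) (by
        intro l' hl' hne h1 h2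
        refine ⟨fun h => ?_, fun h => hne (Fin.ext h)⟩
        have : l' = l := Fin.ext (by omega)
        subst this
        exact hcon ⟨hl', h1⟩))).1 _ hk0
    obtain ⟨i, hi, _⟩ := h.mpr ⟨_, rfl, by simp only; omega, by simp only; omega⟩
    cases hi
  have above : ∀ l : Fin (2 * q + 1), k0.val < l.val →
      GE.row j l ∈ E' ∧ e2 (GE.row j l : GE n q m) ∈ T := by
    intro l hl
    by_contra hcon
    have hll := l.isLt
    have h := (prop (fun v => ∃ i : Fin (2 * q + 2), v = GV.u j i ∧ k0.val + 1 ≤ i.val ∧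
      i.val ≤ l.val) (cut (k0.val + 1) l.val (by omega) (by omega) (by omega) (by
        intro l' hl' hne h1 h2
        refine ⟨fun h => hne (Fin.ext (by omega)), fun h => ?_⟩
        have : l' = l := Fin.ext (by omega)
        subst this
        exact hcon ⟨hl', h2⟩))).2 _ hk1
    obtain ⟨i, hi, _⟩ := h.mpr ⟨_, rfl, by simp only; omega, by simp only; omega⟩
    cases hi
  constructor
  · intro l
    rcases lt_trichotomy l.val k0.val with h | h | h
    · exact (below l h).1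
    · have : l = k0 := Fin.ext h
      subst this
      exact h0
    · exact (above l h).1
  · intro i
    have hi := i.isLt
    have hkk := k0.isLt
    rcases lt_trichotomy i.val k0.val with h | h | h
    · exact (below ⟨i.val, by omega⟩ h).2
    · have : i = ⟨k0.val, by omega⟩ := Fin.ext h
      rw [this]
      exact Or.inl (Or.inr hk0)
    · by_cases h' : i.val = k0.val + 1
      · have : i = ⟨k0.val + 1, by omega⟩ := Fin.ext h'
        rw [this]
        exact Or.inr hk1
      · have h2 := (above ⟨i.val - 1, by omega⟩ (by simp only; omega)).2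
        simp only [e2] at h2
        have : i = ⟨i.val - 1 + 1, by omega⟩ := Fin.ext (by simp only; omega)
        rw [this]
        exact h2

/-- The main structural statement about models in the host graph. -/
theorem host_structure {C : Set (GV n q)} {V : Fin 5 → Set (GV n q)} {D : Fin 2 → Set (GV n q)}
    {W : Fin 5 → Set (GV n q)}
    (hC : ConnE E' C) (hV : ∀ i, ConnE E' (V i)) (hD : ∀ i, ConnE E' (D i))
    (hW : ∀ i, ConnE E' (W i))
    (dCV : ∀ i, Disjoint C (V i)) (dCD : ∀ i, Disjoint C (D i)) (dCW : ∀ i, Disjoint C (W i))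
    (dVV : ∀ i j, i ≠ j → Disjoint (V i) (V j)) (dVD : ∀ i j, Disjoint (V i) (D j))
    (dVW : ∀ i j, Disjoint (V i) (W j)) (dDD : Disjoint (D 0) (D 1))
    (dDW : ∀ i j, Disjoint (D i) (W j)) (dWW : ∀ i j, i ≠ j → Disjoint (W i) (W j))
    (aCV : ∀ i, Dbl E' C (V i)) (aVV : ∀ i : Fin 4, Dbl E' (V i.castSucc) (V i.succ))
    (aCD : ∀ i, Sgl E' C (D i)) (aDD : Sgl E' (D 0) (D 1))
    (aWW : ∀ i, Dbl E' (W i) (W (i + 1))) :
    (∃ j, (∀ l, GE.row j l ∈ E') ∧ GE.sp j ∈ E') ∧
      ∀ j, GE.sp j ∈ E' ∨ ∃ l, GE.row j l ∈ E' := by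
  -- `a` is not used by the cycle
  have haW : ∀ i, GV.a ∉ W i := by
    intro i0 hi0
    have haC : GV.a ∉ C := fun h => Set.disjoint_left.mp (dCW i0) h hi0
    have haV : ∀ i, GV.a ∉ V i := fun i h => Set.disjoint_left.mp (dVW i i0) h hi0
    rcases al_or hC haC with h | h
    · have hVal : ∀ i, ∀ v ∈ V i, ∃ k, v = GV.al k := fun i =>
        al_adj h (hV i) (haV i) (aCV i).sgl
      exact no_three_al hC h (hVal 0) (hVal 1) (hVal 2) (dCV 0) (dCV 1) (dCV 2)
        (dVV 0 1 (by decide)) (dVV 0 2 (by decide)) (dVV 1 2 (by decide)) (aCV 0).sgl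
        (aCV 1).sgl (aCV 2).sgl
    · have nV : ∀ i, Nk (V i) := by
        intro i
        refine ⟨haV i, ?_⟩
        rcases al_or (hV i) (haV i) with h' | h'
        · exfalso
          obtain ⟨x, hx⟩ := hC.1
          obtain ⟨k, rfl⟩ := al_adj h' hC haC (aCV i).sgl.symm x hx
          exact h k hx
        · exact h'
      exact no_fan hC hV ⟨haC, h⟩ nV dCV dVV aCV aVV
  -- the cycle is in the necklace
  have nW : ∀ i, Nk (W i) := by
    by_cases h : ∀ i, ∀ v ∈ W i, ∃ k, v = GV.al k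
    · exact (no_cycle_al hW h dWW (fun i => (aWW i).sgl)).elim
    · push Not at h
      obtain ⟨i0, v, hv, hvk⟩ := h
      have h0 : ∀ i, GV.al i ∉ W i0 := by
        rcases al_or (hW i0) (haW i0) with h' | h'
        · obtain ⟨k, hk⟩ := h' v hv
          exact absurd hk (hvk k)
        · exact h'
      have step : ∀ i, (∀ k, GV.al k ∉ W i) → ∀ k, GV.al k ∉ W (i + 1) := by
        intro i hi
        rcases al_or (hW (i + 1)) (haW (i + 1)) with h' | h'
        · exfalso
          obtain ⟨x, hx⟩ := (hW i).1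
          obtain ⟨k, rfl⟩ := al_adj h' (hW i) (haW i) (aWW i).sgl.symm x hx
          exact hi k hx
        · exact h'
      have all : ∀ i, ∀ k, GV.al k ∉ W i := by
        have h1 := step _ h0
        have h2 := step _ h1
        have h3 := step _ h2
        have h4 := step _ h3
        have hc : ∀ i0 i : Fin 5, i = i0 ∨ i = i0 + 1 ∨ i = i0 + 1 + 1 ∨ i = i0 + 1 + 1 + 1 ∨
            i = i0 + 1 + 1 + 1 + 1 := by decide
        intro i
        rcases hc i0 i with rfl | rfl | rfl | rfl | rfl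
        · exact h0
        · exact h1
        · exact h2
        · exact h3
        · exact h4
      exact fun i => ⟨haW i, all i⟩
  have hubs := cycle_hubs hW nW dWW aWW
  have levels := cycle_levels hW nW dWW aWW
  have fC : HF C := fun x hx => by
    obtain ⟨i, hi⟩ := hubs x
    exact Set.disjoint_left.mp (dCW i) hx hi
  have fV : ∀ i, HF (V i) := fun j x hx => by
    obtain ⟨i, hi⟩ := hubs x
    exact Set.disjoint_left.mp (dVW j i) hx hi
  have fD : ∀ i, HF (D i) := fun j x hx => by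
    obtain ⟨i, hi⟩ := hubs x
    exact Set.disjoint_left.mp (dDW j i) hx hi
  obtain ⟨ha, hal⟩ := fan_at_a hC hV fC fV dCV dVV aCV aVV
  have alC : ∀ k, GV.al k ∉ C := fun k h => by
    obtain ⟨i, hi⟩ := hal k
    exact Set.disjoint_left.mp (dCV i) h hi
  have nD : ∀ i, Nk (D i) := fun i =>
    ⟨fun h => Set.disjoint_left.mp (dCD i) ha h, fun k h => by
      obtain ⟨i', hi'⟩ := hal k
      exact Set.disjoint_left.mp (dVD i' i) hi' h⟩
  obtain ⟨j, hj⟩ := row_of_HF (hD 0) (nD 0) (fD 0)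
  obtain ⟨j', hj'⟩ := row_of_HF (hD 1) (nD 1) (fD 1)
  obtain ⟨e, heE, he⟩ := aDD
  obtain ⟨k0, rfl, hjj⟩ := joins_row hj hj' he
  subst hjj
  have hrow : (∀ l, GE.row j l ∈ E') ∧ ∀ i, GV.u j i ∈ C ∪ D 0 ∪ D 1 := by
    rcases he with ⟨h1, h2⟩ | ⟨h1, h2⟩
    · exact triangle_row hC (hD 0) (hD 1) fC alC ha hj hj' (dCD 0) (dCD 1) dDD heE h1 h2
        (aCD 0) (aCD 1)
    · have := triangle_row hC (hD 1) (hD 0) fC alC ha hj' hj (dCD 1) (dCD 0) dDD.symm heE h1 h2
        (aCD 1) (aCD 0)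
      refine ⟨this.1, fun i => ?_⟩
      rcases this.2 i with (h | h) | h
      · exact Or.inl (Or.inl h)
      · exact Or.inr h
      · exact Or.inl (Or.inr h)
  have hjW : ∀ i y, GV.u j i ∉ W y := by
    intro i y h
    rcases hrow.2 i with (h' | h') | h'
    · exact Set.disjoint_left.mp (dCW y) h' h
    · exact Set.disjoint_left.mp (dDW 0 y) h' h
    · exact Set.disjoint_left.mp (dDW 1 y) h' h
  refine ⟨⟨j, hrow.1, ?_⟩, ?_⟩
  · rcases levels j with h | ⟨l, _, ⟨y, hy⟩, _⟩
    · exact h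
    · exact absurd hy (hjW _ y)
  · intro j2
    rcases levels j2 with h | ⟨l, hl, _⟩
    · exact Or.inl h
    · exact Or.inr ⟨l, hl⟩

end Pool.Agent.Helper61.EP
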