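import Pool.Agent.Helper61.EP.HGraph
import Pool.Agent.Helper61.EP.Host2

/-!
# Deleting few edges from the host graph leaves a model of `H`
-/

namespace Pool.Agent.Helper61.EP

variable {n q m : ℕ}

theorem nx_ne (j : Fin (n + 6)) : j ≠ nx j := by
  intro h
  have h' := congrArg Fin.val h
  rcases nx_val j with ⟨_, h2⟩ | ⟨_, h2⟩ <;> omega

theorem e_ne : ∀ e : GE n q m, e1 e ≠ e2 e := by
  intro e
  cases e with
  | aal i k => simp [e1, e2]
  | alal i k =>
    simp only [e1, e2, ne_eq, GV.al.injEq]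
    exact (Fin.castSucc_lt_succ (i := i)).ne
  | row j i => simp [e1, e2]
  | lo j i => simp [e1, e2]
  | hi j i => simp [e1, e2]
  | sp j =>
    simp only [e1, e2, ne_eq, GV.z.injEq]
    exact nx_ne j
  | lf j => simp [e1, e2]
  | rt j => simp [e1, e2]

/-- the host graph -/
def hostG (n q m : ℕ) : MGraph where
  V := GV n q
  E := GE n q m
  finV := inferInstance
  finE := inferInstance
  ends e := s(e1 e, e2 e)
  loopless := by
    intro e
    rw [Sym2.mk_isDiag_iff]
    exact e_ne e

/-- the host graph with the edges of `X` deleted -/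
def delG (X : Set (GE n q m)) : MGraph where
  V := GV n q
  E := {e : GE n q m // e ∉ X}
  finV := inferInstance
  finE := inferInstance
  ends e := s(e1 e.1, e2 e.1)
  loopless := by
    intro e
    rw [Sym2.mk_isDiag_iff]
    exact e_ne e.1

/-- the deleted graph is a subgraph -/
def delEmb (X : Set (GE n q m)) : Emb (delG X) (hostG n q m) where
  fV := id
  fE := Subtype.val
  injV := Function.injective_id
  injE := Subtype.val_injective
  comm := by
    intro e
    change s(e1 e.1, e2 e.1) = Sym2.map id s(e1 e.1, e2 e.1)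
    rw [Sym2.map_id, id]

theorem step_del {X : Set (GE n q m)} {S : Set (GV n q)} (e : GE n q m) (he : e ∉ X)
    {x y : GV n q} (hx : x ∈ S) (hy : y ∈ S)
    (h : (e1 e = x ∧ e2 e = y) ∨ (e1 e = y ∧ e2 e = x)) :
    StepIn (delG X) S x y := by
  refine ⟨hx, hy, ⟨e, he⟩, ?_⟩
  change s(e1 e, e2 e) = s(x, y)
  rcases h with ⟨h1, h2⟩ | ⟨h1, h2⟩
  · rw [h1, h2]
  · rw [h1, h2, Sym2.eq_swap]

/-! ### offsets from the level `j` -/

def off (j x : Fin (n + 6)) : ℕ :=
  if j.val < x.val then x.val - j.val - 1 else x.val + (n + 6) - j.val - 1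

/-- the hub at offset `o` -/
def xo (j : Fin (n + 6)) (o : ℕ) (ho : o < n + 6) : Fin (n + 6) :=
  if h : j.val + 1 + o < n + 6 then ⟨j.val + 1 + o, h⟩ else ⟨j.val + 1 + o - (n + 6), by omega⟩

theorem off_xo (j : Fin (n + 6)) (o : ℕ) (ho : o < n + 6) : off j (xo j o ho) = o := by
  unfold off xo
  split_ifs with h1 h2 h3 <;> simp only at * <;> omega

theorem off_lt (j x : Fin (n + 6)) : off j x < n + 6 := by
  unfold off
  have := j.isLt
  have := x.isLt
  split_ifs <;> omega

theorem off_inj {j x y : Fin (n + 6)} (h : off j x = off j y) : x = y := by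
  unfold off at h
  have := j.isLt
  have := x.isLt
  have := y.isLt
  apply Fin.ext
  split_ifs at h <;> omega

theorem off_self (j : Fin (n + 6)) : off j j = n + 5 := by
  unfold off
  have := j.isLt
  split_ifs <;> omega

theorem off_nx {j x : Fin (n + 6)} (h : x ≠ j) : off j (nx x) = off j x + 1 := by
  have hne : x.val ≠ j.val := fun h' => h (Fin.ext h')
  unfold off
  have := j.isLt
  have := x.isLt
  rcases nx_val x with ⟨_, h2⟩ | ⟨_, h2⟩ <;> rw [h2] <;> split_ifs <;> omega

theorem off_nx_self (j : Fin (n + 6)) : off j (nx j) = 0 := by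
  unfold off
  have := j.isLt
  rcases nx_val j with ⟨_, h2⟩ | ⟨_, h2⟩ <;> rw [h2] <;> split_ifs <;> omega

/-- the arc of the 5-cycle containing an offset -/
def arcO (n : ℕ) (o : ℕ) : Fin 5 :=
  if o = 0 ∨ o = n + 5 then 0
  else if o = 1 then 1
  else if o = 2 then 2
  else if o = 3 then 3
  else 4

/-- owner of a vertex -/
def own (j : Fin (n + 6)) (l1 l2 : Fin (n + 6) → Fin (q + 1)) : GV n q → Option HV
  | .a => some .c
  | .al i => some (.v i)
  | .z x => some (.w (arcO n (off j x)))
  | .u i k =>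
    if i = j then (if k.val = 2 * q + 1 then some (.d 1) else some (.d 0))
    else if k.val / 2 = (l1 i).val ∨ k.val / 2 = (l2 i).val then
      (if k.val % 2 = 1 then some (.w (arcO n (off j i))) else some (.w (arcO n (off j (nx i)))))
    else none

/-- the data needed for a model -/
structure Good (X : Set (GE n q m)) (j : Fin (n + 6)) (l1 l2 : Fin (n + 6) → Fin (q + 1))
    (k1 k2 : Fin 5 → Fin m) (k3 k4 : Fin 4 → Fin m) : Prop where
  row : ∀ i, GE.row j i ∉ X
  hi : ∀ i, GE.hi j i ∉ X
  sp : GE.sp j ∉ X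
  lf : GE.lf j ∉ X
  rt : GE.rt j ∉ X
  lne : ∀ i, l1 i ≠ l2 i
  lo1 : ∀ i, GE.lo i (l1 i) ∉ X
  lo2 : ∀ i, GE.lo i (l2 i) ∉ X
  hi1 : ∀ i, GE.hi i (l1 i) ∉ X
  hi2 : ∀ i, GE.hi i (l2 i) ∉ X
  row1 : ∀ i, GE.row i ⟨2 * (l1 i).val, by omega⟩ ∉ X
  row2 : ∀ i, GE.row i ⟨2 * (l2 i).val, by omega⟩ ∉ X
  kne : ∀ i, k1 i ≠ k2 i
  kne' : ∀ i, k3 i ≠ k4 i
  aal1 : ∀ i, GE.aal i (k1 i) ∉ X
  aal2 : ∀ i, GE.aal i (k2 i) ∉ X
  alal1 : ∀ i, GE.alal i (k3 i) ∉ X
  alal2 : ∀ i, GE.alal i (k4 i) ∉ X

section

variable {X : Set (GE n q m)} {j : Fin (n + 6)} {l1 l2 : Fin (n + 6) → Fin (q + 1)}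
  {k1 k2 : Fin 5 → Fin m} {k3 k4 : Fin 4 → Fin m}

/-- the branch sets -/
def bS (j : Fin (n + 6)) (l1 l2 : Fin (n + 6) → Fin (q + 1)) (x : HV) : Set (GV n q) :=
  {p | own j l1 l2 p = some x}

/-- each vertex owned by `w y` is joined to a hub owned by `w y` -/
theorem to_hub (G : Good X j l1 l2 k1 k2 k3 k4) (y : Fin 5) (p : GV n q)
    (hp : p ∈ bS j l1 l2 (.w y)) :
    ∃ x, (GV.z x : GV n q) ∈ bS j l1 l2 (.w y) ∧
      Relation.ReflTransGen (StepIn (delG X) (bS j l1 l2 (.w y))) (.z x) p := by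
  cases p with
  | a => exact absurd (Option.some.inj hp) (by simp)
  | al i => exact absurd (Option.some.inj hp) (by simp)
  | z x => exact ⟨x, hp, Relation.ReflTransGen.refl⟩
  | u i k =>
    have hp0 := hp
    change (if i = j then (if k.val = 2 * q + 1 then some (HV.d 1) else some (.d 0))
      else if k.val / 2 = (l1 i).val ∨ k.val / 2 = (l2 i).val then
        (if k.val % 2 = 1 then some (.w (arcO n (off j i)))
          else some (.w (arcO n (off j (nx i)))))
      else none) = some (.w y) at hp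
    by_cases hij : i = j
    · rw [if_pos hij] at hp
      split_ifs at hp
      · exact absurd (Option.some.inj hp) (by simp)
      · exact absurd (Option.some.inj hp) (by simp)
    · rw [if_neg hij] at hp
      by_cases hl : k.val / 2 = (l1 i).val ∨ k.val / 2 = (l2 i).val
      · rw [if_pos hl] at hp
        by_cases hk : k.val % 2 = 1
        · rw [if_pos hk] at hp
          have hz : (GV.z i : GV n q) ∈ bS j l1 l2 (.w y) := hp
          refine ⟨i, hz, Relation.ReflTransGen.single ?_⟩
          rcases hl with hl | hl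
          · refine step_del (.lo i (l1 i)) (G.lo1 i) hz hp0 (Or.inl ⟨rfl, ?_⟩)
            simp only [e2, GV.u.injEq, true_and]
            exact Fin.ext (by simp only; omega)
          · refine step_del (.lo i (l2 i)) (G.lo2 i) hz hp0 (Or.inl ⟨rfl, ?_⟩)
            simp only [e2, GV.u.injEq, true_and]
            exact Fin.ext (by simp only; omega)
        · rw [if_neg hk] at hp
          have hz : (GV.z (nx i) : GV n q) ∈ bS j l1 l2 (.w y) := hp
          refine ⟨nx i, hz, Relation.ReflTransGen.single ?_⟩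
          rcases hl with hl | hl
          · refine step_del (.hi i (l1 i)) (G.hi1 i) hz hp0 (Or.inl ⟨rfl, ?_⟩)
            simp only [e2, GV.u.injEq, true_and]
            exact Fin.ext (by simp only; omega)
          · refine step_del (.hi i (l2 i)) (G.hi2 i) hz hp0 (Or.inl ⟨rfl, ?_⟩)
            simp only [e2, GV.u.injEq, true_and]
            exact Fin.ext (by simp only; omega)
      · rw [if_neg hl] at hp
        cases hp

theorem own_u_odd {i : Fin (n + 6)} (hij : i ≠ j) {k : Fin (2 * q + 2)} (hk : k.val % 2 = 1)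
    (hl : k.val / 2 = (l1 i).val ∨ k.val / 2 = (l2 i).val) :
    own j l1 l2 (GV.u i k) = some (.w (arcO n (off j i))) := by
  change (if i = j then (if k.val = 2 * q + 1 then some (HV.d 1) else some (.d 0))
      else if k.val / 2 = (l1 i).val ∨ k.val / 2 = (l2 i).val then
        (if k.val % 2 = 1 then some (.w (arcO n (off j i)))
          else some (.w (arcO n (off j (nx i)))))
      else none) = _
  rw [if_neg hij, if_pos hl, if_pos hk]

theorem own_u_even {i : Fin (n + 6)} (hij : i ≠ j) {k : Fin (2 * q + 2)} (hk : k.val % 2 = 0)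
    (hl : k.val / 2 = (l1 i).val ∨ k.val / 2 = (l2 i).val) :
    own j l1 l2 (GV.u i k) = some (.w (arcO n (off j (nx i)))) := by
  change (if i = j then (if k.val = 2 * q + 1 then some (HV.d 1) else some (.d 0))
      else if k.val / 2 = (l1 i).val ∨ k.val / 2 = (l2 i).val then
        (if k.val % 2 = 1 then some (.w (arcO n (off j i)))
          else some (.w (arcO n (off j (nx i)))))
      else none) = _
  rw [if_neg hij, if_pos hl, if_neg (by omega)]

/-- consecutive hubs of the same arc are connected through a good column -/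
theorem link (G : Good X j l1 l2 k1 k2 k3 k4) (y : Fin 5) (i : Fin (n + 6)) (hij : i ≠ j)
    (h1 : arcO n (off j i) = y) (h2 : arcO n (off j (nx i)) = y) :
    Relation.ReflTransGen (StepIn (delG X) (bS j l1 l2 (.w y))) (.z i) (.z (nx i)) := by
  have hz1 : (GV.z i : GV n q) ∈ bS j l1 l2 (.w y) := by
    change some (HV.w (arcO n (off j i))) = some (HV.w y)
    rw [h1]
  have hz2 : (GV.z (nx i) : GV n q) ∈ bS j l1 l2 (.w y) := by
    change some (HV.w (arcO n (off j (nx i)))) = some (HV.w y)
    rw [h2]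
  have hl := (l1 i).isLt
  have hu1 : (GV.u i ⟨2 * (l1 i).val + 1, by omega⟩ : GV n q) ∈ bS j l1 l2 (.w y) := by
    change own j l1 l2 _ = _
    rw [own_u_odd hij (by simp only; omega) (Or.inl (by simp only; omega)), h1]
  have hu2 : (GV.u i ⟨2 * (l1 i).val, by omega⟩ : GV n q) ∈ bS j l1 l2 (.w y) := by
    change own j l1 l2 _ = _
    rw [own_u_even hij (by simp only; omega) (Or.inl (by simp only; omega)), h2]
  have s1 : StepIn (delG X) (bS j l1 l2 (.w y)) (.z i) (.u i ⟨2 * (l1 i).val + 1, by omega⟩) :=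
    step_del (.lo i (l1 i)) (G.lo1 i) hz1 hu1 (Or.inl ⟨rfl, rfl⟩)
  have s2 : StepIn (delG X) (bS j l1 l2 (.w y)) (.u i ⟨2 * (l1 i).val + 1, by omega⟩)
      (.u i ⟨2 * (l1 i).val, by omega⟩) :=
    step_del (.row i ⟨2 * (l1 i).val, by omega⟩) (G.row1 i) hu1 hu2 (Or.inr ⟨rfl, rfl⟩)
  have s3 : StepIn (delG X) (bS j l1 l2 (.w y)) (.u i ⟨2 * (l1 i).val, by omega⟩)
      (.z (nx i)) :=
    step_del (.hi i (l1 i)) (G.hi1 i) hu2 hz2 (Or.inr ⟨rfl, rfl⟩)
  exact ((Relation.ReflTransGen.single s1).tail s2).tail s3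

theorem arcO_four {o : ℕ} (h1 : 4 ≤ o) (h2 : o ≤ n + 4) : arcO n o = 4 := by
  unfold arcO
  rw [if_neg (by omega), if_neg (by omega), if_neg (by omega), if_neg (by omega)]

theorem nx_xo (o : ℕ) (ho : o + 1 < n + 6) : nx (xo j o (by omega)) = xo j (o + 1) ho := by
  apply off_inj (j := j)
  rw [off_xo, off_nx, off_xo]
  intro h
  have := off_xo j o (by omega)
  rw [h, off_self] at this
  omega

theorem xo_ne (o : ℕ) (ho : o < n + 5) : xo j o (by omega) ≠ j := by
  intro h
  have := off_xo j o (by omega)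
  rw [h, off_self] at this
  omega

theorem arcO_val (o : ℕ) (ho : o < n + 6) :
    (arcO n o = 0 ∧ (o = 0 ∨ o = n + 5)) ∨ (arcO n o = 1 ∧ o = 1) ∨ (arcO n o = 2 ∧ o = 2) ∨
    (arcO n o = 3 ∧ o = 3) ∨ (arcO n o = 4 ∧ 4 ≤ o ∧ o ≤ n + 4) := by
  unfold arcO
  split_ifs with h1 h2 h3 h4
  · exact Or.inl ⟨rfl, h1⟩
  · exact Or.inr (Or.inl ⟨rfl, h2⟩)
  · exact Or.inr (Or.inr (Or.inl ⟨rfl, h3⟩))
  · exact Or.inr (Or.inr (Or.inr (Or.inl ⟨rfl, h4⟩)))
  · exact Or.inr (Or.inr (Or.inr (Or.inr ⟨rfl, by omega, by omega⟩)))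

theorem w_conn (G : Good X j l1 l2 k1 k2 k3 k4) (y : Fin 5) :
    ConnectedOn (delG X) (bS j l1 l2 (.w y)) := by
  -- it suffices to connect the hubs to a root hub
  have main : ∀ r : Fin (n + 6), arcO n (off j r) = y →
      (∀ x, arcO n (off j x) = y →
        Relation.ReflTransGen (StepIn (delG X) (bS j l1 l2 (.w y))) (.z r) (.z x)) →
      ConnectedOn (delG X) (bS j l1 l2 (.w y)) := by
    intro r hr hx
    refine connectedOn_of_root _ _ (GV.z r) ?_ ?_
    · change some (HV.w (arcO n (off j r))) = some (HV.w y)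
      rw [hr]
    · intro p hp
      obtain ⟨x, hxm, hxp⟩ := to_hub G y p hp
      have : arcO n (off j x) = y := by
        have h := Option.some.inj hxm
        injection h
      exact (hx x this).trans hxp
  have single : ∀ (o : ℕ) (ho : o < n + 6), arcO n o = y → (∀ o', o' < n + 6 → arcO n o' = y →
      o' = o) → ConnectedOn (delG X) (bS j l1 l2 (.w y)) := by
    intro o ho h1 h2
    refine main (xo j o ho) (by rw [off_xo]; exact h1) ?_
    intro x hx
    have h3 := h2 _ (off_lt j x) hx
    have h4 : xo j o ho = x := by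
      apply off_inj (j := j)
      rw [off_xo, h3]
    rw [h4]
    
  have hy : y = 0 ∨ y = 1 ∨ y = 2 ∨ y = 3 ∨ y = 4 := by
    have : ∀ y : Fin 5, y = 0 ∨ y = 1 ∨ y = 2 ∨ y = 3 ∨ y = 4 := by decide
    exact this y
  rcases hy with rfl | rfl | rfl | rfl | rfl
  · refine main (nx j) (by rw [off_nx_self]; rfl) ?_
    intro x hx
    rcases arcO_val (off j x) (off_lt j x) with ⟨_, h | h⟩ | ⟨h, _⟩ | ⟨h, _⟩ | ⟨h, _⟩ | ⟨h, _⟩
    · have h4 : nx j = x := off_inj (j := j) (by rw [off_nx_self, h])
      rw [h4]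
    · have h4 : j = x := off_inj (j := j) (by rw [off_self, h])
      subst h4
      apply Relation.ReflTransGen.single
      refine step_del (.sp j) G.sp ?_ ?_ (Or.inr ⟨rfl, rfl⟩)
      · change some (HV.w (arcO n (off j (nx j)))) = some (HV.w 0)
        rw [off_nx_self]
        rfl
      · change some (HV.w (arcO n (off j j))) = some (HV.w 0)
        rw [hx]
    · rw [h] at hx; exact absurd hx (by decide)
    · rw [h] at hx; exact absurd hx (by decide)
    · rw [h] at hx; exact absurd hx (by decide)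
    · rw [h] at hx; exact absurd hx (by decide)
  · refine single 1 (by omega) rfl ?_
    intro o' ho' h'
    rcases arcO_val o' ho' with ⟨h, _⟩ | ⟨_, h⟩ | ⟨h, _⟩ | ⟨h, _⟩ | ⟨h, _⟩
    · rw [h] at h'; exact absurd h' (by decide)
    · exact h
    · rw [h] at h'; exact absurd h' (by decide)
    · rw [h] at h'; exact absurd h' (by decide)
    · rw [h] at h'; exact absurd h' (by decide)
  · refine single 2 (by omega) rfl ?_
    intro o' ho' h'
    rcases arcO_val o' ho' with ⟨h, _⟩ | ⟨h, _⟩ | ⟨_, h⟩ | ⟨h, _⟩ | ⟨h, _⟩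
    · rw [h] at h'; exact absurd h' (by decide)
    · rw [h] at h'; exact absurd h' (by decide)
    · exact h
    · rw [h] at h'; exact absurd h' (by decide)
    · rw [h] at h'; exact absurd h' (by decide)
  · refine single 3 (by omega) rfl ?_
    intro o' ho' h'
    rcases arcO_val o' ho' with ⟨h, _⟩ | ⟨h, _⟩ | ⟨h, _⟩ | ⟨_, h⟩ | ⟨h, _⟩
    · rw [h] at h'; exact absurd h' (by decide)
    · rw [h] at h'; exact absurd h' (by decide)
    · rw [h] at h'; exact absurd h' (by decide)
    · exact h
    · rw [h] at h'; exact absurd h' (by decide)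
  · have chain : ∀ t : ℕ, ∀ ht : 4 + t ≤ n + 4,
        Relation.ReflTransGen (StepIn (delG X) (bS j l1 l2 (.w 4))) (.z (xo j 4 (by omega)))
          (.z (xo j (4 + t) (by omega))) := by
      intro t
      induction t with
      | zero => intro _; exact Relation.ReflTransGen.refl
      | succ t ih =>
        intro ht
        have h1 := ih (by omega)
        have h2 := link G 4 (xo j (4 + t) (by omega)) (xo_ne _ (by omega))
          (by rw [off_xo]; exact arcO_four (by omega) (by omega))
          (by rw [nx_xo (4 + t) (by omega), off_xo]; exact arcO_four (by omega) (by omega))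
        rw [nx_xo (4 + t) (by omega)] at h2
        exact h1.trans h2
    refine main (xo j 4 (by omega)) (by rw [off_xo]; exact arcO_four (by omega) (by omega)) ?_
    intro x hx
    rcases arcO_val (off j x) (off_lt j x) with ⟨h, _⟩ | ⟨h, _⟩ | ⟨h, _⟩ | ⟨h, _⟩ | ⟨_, h3, h4⟩
    · rw [h] at hx; exact absurd hx (by decide)
    · rw [h] at hx; exact absurd hx (by decide)
    · rw [h] at hx; exact absurd hx (by decide)
    · rw [h] at hx; exact absurd hx (by decide)
    · have h5 := chain (off j x - 4) (by omega)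
      have h6 : xo j (4 + (off j x - 4)) (by omega) = x := by
        apply off_inj (j := j)
        rw [off_xo]
        omega
      rw [h6] at h5
      exact h5

end

end Pool.Agent.Helper61.EP
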