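import Pool.Agent.Helper61.EP.Exist

/-!
# The model of `H` in the host graph minus few edges
-/

namespace Pool.Agent.Helper61.EP

variable {n q m : ℕ}

section

variable {X : Set (GE n q m)} {j : Fin (n + 6)} {l1 l2 : Fin (n + 6) → Fin (q + 1)}
  {k1 k2 : Fin 5 → Fin m} {k3 k4 : Fin 4 → Fin m}

theorem own_u_self_last {k : Fin (2 * q + 2)} (hk : k.val = 2 * q + 1) :
    own j l1 l2 (GV.u j k : GV n q) = some (.d 1) := by
  change (if j = j then (if k.val = 2 * q + 1 then some (HV.d 1) else some (.d 0))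
      else if k.val / 2 = (l1 j).val ∨ k.val / 2 = (l2 j).val then
        (if k.val % 2 = 1 then some (.w (arcO n (off j j)))
          else some (.w (arcO n (off j (nx j)))))
      else none) = _
  rw [if_pos rfl, if_pos hk]

theorem own_u_self {k : Fin (2 * q + 2)} (hk : k.val ≠ 2 * q + 1) :
    own j l1 l2 (GV.u j k : GV n q) = some (.d 0) := by
  change (if j = j then (if k.val = 2 * q + 1 then some (HV.d 1) else some (.d 0))
      else if k.val / 2 = (l1 j).val ∨ k.val / 2 = (l2 j).val then
        (if k.val % 2 = 1 then some (.w (arcO n (off j j)))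
          else some (.w (arcO n (off j (nx j)))))
      else none) = _
  rw [if_pos rfl, if_neg hk]

/-- the owner of a vertex of a row is not `c` or some `v i` -/
theorem own_u_cases (i : Fin (n + 6)) (k : Fin (2 * q + 2)) (x : HV)
    (h : own j l1 l2 (GV.u i k : GV n q) = some x) :
    (i = j ∧ k.val = 2 * q + 1 ∧ x = .d 1) ∨ (i = j ∧ k.val ≠ 2 * q + 1 ∧ x = .d 0) ∨
      (i ≠ j ∧ ∃ y, x = .w y) := by
  change (if i = j then (if k.val = 2 * q + 1 then some (HV.d 1) else some (.d 0))
      else if k.val / 2 = (l1 i).val ∨ k.val / 2 = (l2 i).val then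
        (if k.val % 2 = 1 then some (.w (arcO n (off j i)))
          else some (.w (arcO n (off j (nx i)))))
      else none) = some x at h
  split_ifs at h with h1 h2 h3 h4
  · exact Or.inl ⟨h1, h2, (Option.some.inj h).symm⟩
  · exact Or.inr (Or.inl ⟨h1, h2, (Option.some.inj h).symm⟩)
  · exact Or.inr (Or.inr ⟨h1, _, (Option.some.inj h).symm⟩)
  · exact Or.inr (Or.inr ⟨h1, _, (Option.some.inj h).symm⟩)

theorem c_conn : ConnectedOn (delG X) (bS j l1 l2 .c) := by
  refine connectedOn_of_root _ _ (GV.a) rfl ?_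
  intro p hp
  have : p = GV.a := by
    cases p with
    | a => rfl
    | al i => exact absurd (Option.some.inj hp) (by simp)
    | z x => exact absurd (Option.some.inj hp) (by simp)
    | u i k =>
      rcases own_u_cases i k _ hp with ⟨_, _, h⟩ | ⟨_, _, h⟩ | ⟨_, _, h⟩ <;> cases h
  rw [this]

theorem v_conn (i : Fin 5) : ConnectedOn (delG X) (bS j l1 l2 (.v i)) := by
  refine connectedOn_of_root _ _ (GV.al i) rfl ?_
  intro p hp
  have : p = GV.al i := by
    cases p with
    | a => exact absurd (Option.some.inj hp) (by simp)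
    | al i' =>
      have h := Option.some.inj hp
      injection h with h
      rw [h]
    | z x => exact absurd (Option.some.inj hp) (by simp)
    | u i k =>
      rcases own_u_cases i k _ hp with ⟨_, _, h⟩ | ⟨_, _, h⟩ | ⟨_, _, h⟩ <;> cases h
  rw [this]

theorem d1_conn : ConnectedOn (delG X) (bS j l1 l2 (.d 1)) := by
  refine connectedOn_of_root _ _ (GV.u j ⟨2 * q + 1, by omega⟩) (own_u_self_last rfl) ?_
  intro p hp
  have : p = GV.u j ⟨2 * q + 1, by omega⟩ := by
    cases p with
    | a => exact absurd (Option.some.inj hp) (by simp)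
    | al i' => exact absurd (Option.some.inj hp) (by simp)
    | z x => exact absurd (Option.some.inj hp) (by simp)
    | u i k =>
      rcases own_u_cases i k _ hp with ⟨h1, h2, h⟩ | ⟨_, _, h⟩ | ⟨_, _, h⟩
      · subst h1
        congr 1
        exact Fin.ext h2
      · exact absurd h (by simp)
      · cases h
  rw [this]

theorem d0_conn (G : Good X j l1 l2 k1 k2 k3 k4) : ConnectedOn (delG X) (bS j l1 l2 (.d 0)) := by
  have hm : ∀ t : ℕ, ∀ ht : t ≤ 2 * q, (GV.u j ⟨t, by omega⟩ : GV n q) ∈ bS j l1 l2 (.d 0) := by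
    intro t ht
    exact own_u_self (by simp only; omega)
  have chain : ∀ t : ℕ, ∀ ht : t ≤ 2 * q,
      Relation.ReflTransGen (StepIn (delG X) (bS j l1 l2 (.d 0))) (GV.u j ⟨0, by omega⟩)
        (GV.u j ⟨t, by omega⟩) := by
    intro t
    induction t with
    | zero => intro _; exact Relation.ReflTransGen.refl
    | succ t ih =>
      intro ht
      refine (ih (by omega)).tail ?_
      exact step_del (.row j ⟨t, by omega⟩) (G.row _) (hm t (by omega)) (hm (t + 1) ht)
        (Or.inl ⟨rfl, rfl⟩)
  refine connectedOn_of_root _ _ (GV.u j ⟨0, by omega⟩) (hm 0 (by omega)) ?_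
  intro p hp
  cases p with
  | a => exact absurd (Option.some.inj hp) (by simp)
  | al i' => exact absurd (Option.some.inj hp) (by simp)
  | z x => exact absurd (Option.some.inj hp) (by simp)
  | u i k =>
    rcases own_u_cases i k _ hp with ⟨h1, h2, h⟩ | ⟨h1, h2, _⟩ | ⟨_, _, h⟩
    · exact absurd h (by simp)
    · subst h1
      have hk := k.isLt
      exact chain k.val (by omega)
    · cases h

theorem bS_conn (G : Good X j l1 l2 k1 k2 k3 k4) (x : HV) :
    ConnectedOn (delG X) (bS j l1 l2 x) := by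
  cases x with
  | c => exact c_conn
  | v i => exact v_conn i
  | d i =>
    have : i = 0 ∨ i = 1 := by
      revert i
      decide
    rcases this with rfl | rfl
    · exact d0_conn G
    · exact d1_conn
  | w y => exact w_conn G y

theorem bS_disjoint (x y : HV) (hxy : x ≠ y) :
    Disjoint (bS j l1 l2 x : Set (GV n q)) (bS j l1 l2 y) := by
  rw [Set.disjoint_left]
  intro p hp hp'
  have h1 : own j l1 l2 p = some x := hp
  have h2 : own j l1 l2 p = some y := hp'
  rw [h1] at h2
  exact hxy (Option.some.inj h2)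

/-- the offset of the row used for the edges between `w i` and `w (i+1)` -/
def oI (n : ℕ) (i : Fin 5) : ℕ := if i = 4 then n + 4 else i.val

theorem oI_lt (n : ℕ) (i : Fin 5) : oI n i < n + 5 := by
  unfold oI
  split_ifs with h
  · omega
  · have : ∀ i : Fin 5, i ≠ 4 → i.val < 4 := by decide
    have := this i h
    omega

theorem oI_inj (n : ℕ) (i i' : Fin 5) (h : oI n i = oI n i') : i = i' := by
  have h4 : ∀ i : Fin 5, i ≠ 4 → i.val < 4 := by decide
  unfold oI at h
  split_ifs at h with h1 h2 h2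
  · rw [h1, h2]
  · have := h4 _ h2
    omega
  · have := h4 _ h1
    omega
  · exact Fin.ext h

theorem arc_oI (n : ℕ) (i : Fin 5) : arcO n (oI n i) = i := by
  have h5 : ∀ i : Fin 5, i = 0 ∨ i = 1 ∨ i = 2 ∨ i = 3 ∨ i = 4 := by decide
  rcases h5 i with rfl | rfl | rfl | rfl | rfl
  · rfl
  · rfl
  · rfl
  · rfl
  · exact arcO_four (by change 4 ≤ n + 4; omega) (le_refl (n + 4))

theorem arc_oI' (n : ℕ) (i : Fin 5) : arcO n (oI n i + 1) = i + 1 := by
  have h5 : ∀ i : Fin 5, i = 0 ∨ i = 1 ∨ i = 2 ∨ i = 3 ∨ i = 4 := by decide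
  rcases h5 i with rfl | rfl | rfl | rfl | rfl
  · rfl
  · rfl
  · rfl
  · exact arcO_four (by change 4 ≤ 3 + 1; omega) (by change 3 + 1 ≤ n + 4; omega)
  · change arcO n (n + 4 + 1) = 0
    unfold arcO
    rw [if_pos (Or.inr rfl)]

/-- the edge map -/
def fm (j : Fin (n + 6)) (l1 l2 : Fin (n + 6) → Fin (q + 1)) (k1 k2 : Fin 5 → Fin m)
    (k3 k4 : Fin 4 → Fin m) : HE → GE n q m
  | .cv i b => .aal i (if b then k1 i else k2 i)
  | .vv i b => .alal i (if b then k3 i else k4 i)
  | .cd i => if i = 0 then .lf j else .rt j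
  | .dd => .row j ⟨2 * q, by omega⟩
  | .br => .hi j ⟨0, by omega⟩
  | .ww i b => .row (xo j (oI n i) ((oI_lt n i).trans (by omega)))
      ⟨2 * (if b then l1 (xo j (oI n i) ((oI_lt n i).trans (by omega)))
        else l2 (xo j (oI n i) ((oI_lt n i).trans (by omega)))).val, by
          have := (if b then l1 (xo j (oI n i) ((oI_lt n i).trans (by omega)))
            else l2 (xo j (oI n i) ((oI_lt n i).trans (by omega)))).isLt
          omega⟩

theorem fm_notMem (G : Good X j l1 l2 k1 k2 k3 k4) (e : HE) :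
    fm j l1 l2 k1 k2 k3 k4 e ∉ X := by
  cases e with
  | cv i b =>
    cases b
    · exact G.aal2 i
    · exact G.aal1 i
  | vv i b =>
    cases b
    · exact G.alal2 i
    · exact G.alal1 i
  | cd i =>
    have : i = 0 ∨ i = 1 := by
      revert i
      decide
    rcases this with rfl | rfl
    · exact G.lf
    · exact G.rt
  | dd => exact G.row _
  | br => exact G.hi _
  | ww i b =>
    cases b
    · exact G.row2 _
    · exact G.row1 _

theorem fm_inj (G : Good X j l1 l2 k1 k2 k3 k4) :
    Function.Injective (fm j l1 l2 k1 k2 k3 k4 : HE → GE n q m) := by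
  intro e e' h
  have hcd : ∀ i : Fin 2, (i = 0 ∧ fm j l1 l2 k1 k2 k3 k4 (.cd i) = .lf j) ∨
      (i = 1 ∧ fm j l1 l2 k1 k2 k3 k4 (.cd i) = .rt j) := by
    intro i
    have : i = 0 ∨ i = 1 := by
      revert i
      decide
    rcases this with rfl | rfl
    · exact Or.inl ⟨rfl, rfl⟩
    · exact Or.inr ⟨rfl, rfl⟩
  cases e with
  | cv i b =>
    cases e' with
    | cv i' b' =>
      simp only [fm, GE.aal.injEq] at h
      obtain ⟨h1, h2⟩ := h
      subst h1
      cases b <;> cases b' <;> simp only [Bool.false_eq_true, if_true, if_false] at h2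
      · rfl
      · exact absurd h2.symm (G.kne i)
      · exact absurd h2 (G.kne i)
      · rfl
    | vv i' b' => cases h
    | cd i' => rcases hcd i' with ⟨_, h'⟩ | ⟨_, h'⟩ <;> rw [h'] at h <;> cases h
    | dd => cases h
    | ww i' b' => cases h
    | br => cases h
  | vv i b =>
    cases e' with
    | cv i' b' => cases h
    | vv i' b' =>
      simp only [fm, GE.alal.injEq] at h
      obtain ⟨h1, h2⟩ := h
      subst h1
      cases b <;> cases b' <;> simp only [Bool.false_eq_true, if_true, if_false] at h2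
      · rfl
      · exact absurd h2.symm (G.kne' i)
      · exact absurd h2 (G.kne' i)
      · rfl
    | cd i' => rcases hcd i' with ⟨_, h'⟩ | ⟨_, h'⟩ <;> rw [h'] at h <;> cases h
    | dd => cases h
    | ww i' b' => cases h
    | br => cases h
  | cd i =>
    cases e' with
    | cv i' b' => rcases hcd i with ⟨_, h'⟩ | ⟨_, h'⟩ <;> rw [h'] at h <;> cases h
    | vv i' b' => rcases hcd i with ⟨_, h'⟩ | ⟨_, h'⟩ <;> rw [h'] at h <;> cases h
    | cd i' =>
      rcases hcd i with ⟨h1, h'⟩ | ⟨h1, h'⟩ <;> rcases hcd i' with ⟨h2, h''⟩ | ⟨h2, h''⟩ <;>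
        rw [h', h''] at h
      · rw [h1, h2]
      · cases h
      · cases h
      · rw [h1, h2]
    | dd => rcases hcd i with ⟨_, h'⟩ | ⟨_, h'⟩ <;> rw [h'] at h <;> cases h
    | ww i' b' => rcases hcd i with ⟨_, h'⟩ | ⟨_, h'⟩ <;> rw [h'] at h <;> cases h
    | br => rcases hcd i with ⟨_, h'⟩ | ⟨_, h'⟩ <;> rw [h'] at h <;> cases h
  | dd =>
    cases e' with
    | cv i' b' => cases h
    | vv i' b' => cases h
    | cd i' => rcases hcd i' with ⟨_, h'⟩ | ⟨_, h'⟩ <;> rw [h'] at h <;> cases h
    | dd => rfl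
    | ww i' b' =>
      simp only [fm, GE.row.injEq] at h
      exact absurd h.1.symm (xo_ne _ (oI_lt n i'))
    | br => cases h
  | ww i b =>
    cases e' with
    | cv i' b' => cases h
    | vv i' b' => cases h
    | cd i' => rcases hcd i' with ⟨_, h'⟩ | ⟨_, h'⟩ <;> rw [h'] at h <;> cases h
    | dd =>
      simp only [fm, GE.row.injEq] at h
      exact absurd h.1 (xo_ne _ (oI_lt n i))
    | ww i' b' =>
      simp only [fm, GE.row.injEq, Fin.mk.injEq] at h
      obtain ⟨h1, h2⟩ := h
      have h3 : i = i' := by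
        apply oI_inj n
        have := congrArg (off j) h1
        rwa [off_xo, off_xo] at this
      subst h3
      cases b <;> cases b' <;> simp only [Bool.false_eq_true, if_true, if_false] at h2
      · rfl
      · exact absurd (Fin.ext (by omega)) (G.lne (xo j (oI n i) ((oI_lt n i).trans (by omega))))
      · exact absurd (Fin.ext (by omega)) (G.lne (xo j (oI n i) ((oI_lt n i).trans (by omega))))
      · rfl
    | br => cases h
  | br =>
    cases e' with
    | cv i' b' => cases h
    | vv i' b' => cases h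
    | cd i' => rcases hcd i' with ⟨_, h'⟩ | ⟨_, h'⟩ <;> rw [h'] at h <;> cases h
    | dd => cases h
    | ww i' b' => cases h
    | br => rfl

theorem fm_ends (G : Good X j l1 l2 k1 k2 k3 k4) (e : HE) :
    (e1 (fm j l1 l2 k1 k2 k3 k4 e) ∈ bS j l1 l2 (hEnd1 e) ∧
      e2 (fm j l1 l2 k1 k2 k3 k4 e) ∈ bS j l1 l2 (hEnd2 e)) ∨
    (e1 (fm j l1 l2 k1 k2 k3 k4 e) ∈ bS j l1 l2 (hEnd2 e) ∧
      e2 (fm j l1 l2 k1 k2 k3 k4 e) ∈ bS j l1 l2 (hEnd1 e)) := by
  cases e with
  | cv i b => exact Or.inl ⟨rfl, rfl⟩
  | vv i b => exact Or.inl ⟨rfl, rfl⟩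
  | cd i =>
    have : i = 0 ∨ i = 1 := by
      revert i
      decide
    rcases this with rfl | rfl
    · exact Or.inl ⟨rfl, own_u_self (by simp only; omega)⟩
    · exact Or.inl ⟨rfl, own_u_self_last rfl⟩
  | dd =>
    exact Or.inl ⟨own_u_self (by simp only; omega), own_u_self_last rfl⟩
  | br =>
    refine Or.inr ⟨?_, own_u_self (by simp only; omega)⟩
    change some (HV.w (arcO n (off j (nx j)))) = some (HV.w 0)
    rw [off_nx_self]
    rfl
  | ww i b =>
    have hx : xo j (oI n i) ((oI_lt n i).trans (by omega)) ≠ j := xo_ne _ (oI_lt n i)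
    have ha : arcO n (off j (xo j (oI n i) ((oI_lt n i).trans (by omega)))) = i := by
      rw [off_xo, arc_oI]
    have hb : arcO n (off j (nx (xo j (oI n i) ((oI_lt n i).trans (by omega))))) = i + 1 := by
      rw [off_nx hx, off_xo, arc_oI']
    refine Or.inr ⟨?_, ?_⟩
    · change own j l1 l2 _ = some (HV.w (i + 1))
      cases b
      · refine (own_u_even hx ?_ (Or.inr ?_)).trans (by rw [hb])
        · simp only [Bool.false_eq_true, if_false]; omega
        · simp only [Bool.false_eq_true, if_false]; omega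
      · refine (own_u_even hx ?_ (Or.inl ?_)).trans (by rw [hb])
        · simp only [if_true]; omega
        · simp only [if_true]; omega
    · change own j l1 l2 _ = some (HV.w i)
      cases b
      · refine (own_u_odd hx ?_ (Or.inr ?_)).trans (by rw [ha])
        · simp only [Bool.false_eq_true, if_false]; omega
        · simp only [Bool.false_eq_true, if_false]; omega
      · refine (own_u_odd hx ?_ (Or.inl ?_)).trans (by rw [ha])
        · simp only [if_true]; omega
        · simp only [if_true]; omega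

/-- the model -/
theorem minor_of_good (G : Good X j l1 l2 k1 k2 k3 k4) : IsMinor HG (delG X) := by
  refine ⟨bS j l1 l2, fun e => ⟨fm j l1 l2 k1 k2 k3 k4 e, fm_notMem G e⟩, bS_conn G,
    bS_disjoint, ?_, ?_⟩
  · intro e e' h
    exact fm_inj G (congrArg Subtype.val h)
  · intro e
    rcases fm_ends G e with ⟨h1, h2⟩ | ⟨h1, h2⟩
    · exact ⟨hEnd1 e, hEnd2 e, _, _, rfl, h1, h2, rfl⟩
    · exact ⟨hEnd1 e, hEnd2 e, _, _, rfl, h2, h1, Sym2.eq_swap⟩

end

end Pool.Agent.Helper61.EP
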