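import Pool.Agent.Helper61.EP.HGraph

/-!
# `H` is planar
-/

namespace Pool.Agent.Helper61.EP

/-- positions of the vertices on the horizontal axis -/
def pos : HV → ℤ
  | .w 1 => 0
  | .w 2 => 1
  | .w 3 => 2
  | .w 4 => 3
  | .w 0 => 4
  | .d i => 5 + i.val
  | .c => 7
  | .v i => 8 + i.val

/-- on which side of the axis an edge is drawn -/
def side : HE → ℤ
  | .cv _ b => if b then 1 else -1
  | .vv _ b => if b then 1 else -1
  | .ww _ b => if b then 1 else -1
  | _ => 1

def lft (e : HE) : ℤ := min (pos (hEnd1 e)) (pos (hEnd2 e))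
def rgt (e : HE) : ℤ := max (pos (hEnd1 e)) (pos (hEnd2 e))

theorem pos_inj : Function.Injective pos := by decide +kernel

theorem lft_lt_rgt : ∀ e, lft e < rgt e := by decide +kernel

theorem side_cases : ∀ e, side e = 1 ∨ side e = -1 := by decide +kernel

theorem noncross : ∀ e e' : HE, e ≠ e' → side e = side e' →
    rgt e ≤ lft e' ∨ rgt e' ≤ lft e ∨
    (lft e ≤ lft e' ∧ rgt e' ≤ rgt e ∧ (lft e ≠ lft e' ∨ rgt e ≠ rgt e')) ∨
    (lft e' ≤ lft e ∧ rgt e ≤ rgt e' ∧ (lft e ≠ lft e' ∨ rgt e ≠ rgt e')) := by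
  decide +kernel

noncomputable def arc (e : HE) (t : ℝ) : ℝ × ℝ :=
  ((lft e : ℝ) + t * ((rgt e : ℝ) - lft e), (side e : ℝ) * (t * (1 - t) * ((rgt e : ℝ) - lft e) ^ 2))

theorem arc_zero (e : HE) : arc e 0 = ((lft e : ℝ), 0) := by simp [arc]

theorem arc_one (e : HE) : arc e 1 = ((rgt e : ℝ), 0) := by simp [arc]

theorem nested_lt {l r l' r' x : ℝ} (hx1 : l' < x) (hx2 : x < r') (h1 : l ≤ l') (h2 : r' ≤ r)
    (h3 : l ≠ l' ∨ r ≠ r') : (x - l') * (r' - x) < (x - l) * (r - x) := by
  rcases h3 with h3 | h3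
  · have : l < l' := lt_of_le_of_ne h1 h3
    nlinarith
  · have : r' < r := lt_of_le_of_ne h2 (Ne.symm h3)
    nlinarith

theorem arc_disj (e e' : HE) (hne : e ≠ e') (t : ℝ) (ht : t ∈ Set.Ioo (0 : ℝ) 1) (t' : ℝ)
    (ht' : t' ∈ Set.Ioo (0 : ℝ) 1) : arc e t ≠ arc e' t' := by
  intro h
  obtain ⟨ht0, ht1⟩ := ht
  obtain ⟨ht0', ht1'⟩ := ht'
  have hlr : (lft e : ℝ) < rgt e := by exact_mod_cast lft_lt_rgt e
  have hlr' : (lft e' : ℝ) < rgt e' := by exact_mod_cast lft_lt_rgt e'
  have hx := congrArg Prod.fst h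
  have hy := congrArg Prod.snd h
  simp only [arc] at hx hy
  set l : ℝ := (lft e : ℝ) with hl
  set r : ℝ := (rgt e : ℝ) with hr
  set l' : ℝ := (lft e' : ℝ) with hl'
  set r' : ℝ := (rgt e' : ℝ) with hr'
  have hpos : 0 < t * (1 - t) * (r - l) ^ 2 := by
    apply mul_pos (mul_pos ht0 (by linarith))
    apply pow_pos
    linarith
  have hpos' : 0 < t' * (1 - t') * (r' - l') ^ 2 := by
    apply mul_pos (mul_pos ht0' (by linarith))
    apply pow_pos
    linarith
  set x : ℝ := l + t * (r - l) with hxdef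
  have e1 : t * (1 - t) * (r - l) ^ 2 = (x - l) * (r - x) := by
    rw [hxdef]
    ring
  have e2 : t' * (1 - t') * (r' - l') ^ 2 = (x - l') * (r' - x) := by
    rw [hx]
    ring
  have hx1 : l < x := by
    rw [hxdef]
    nlinarith
  have hx2 : x < r := by
    rw [hxdef]
    nlinarith
  have hx1' : l' < x := by
    rw [hx]
    nlinarith
  have hx2' : x < r' := by
    rw [hx]
    nlinarith
  by_cases hside : side e = side e'
  · have hyy : (x - l) * (r - x) = (x - l') * (r' - x) := by
      rw [hside] at hy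
      have hs : (side e' : ℝ) ≠ 0 := by
        rcases side_cases e' with h | h <;> rw [h] <;> norm_num
      have := mul_left_cancel₀ hs hy
      rw [e1, e2] at this
      exact this
    rcases noncross e e' hne hside with h | h | ⟨h1, h2, h3⟩ | ⟨h1, h2, h3⟩
    · have : r ≤ l' := by rw [hr, hl']; exact_mod_cast h
      linarith
    · have : r' ≤ l := by rw [hr', hl]; exact_mod_cast h
      linarith
    · have h1' : l ≤ l' := by rw [hl, hl']; exact_mod_cast h1
      have h2' : r' ≤ r := by rw [hr, hr']; exact_mod_cast h2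
      have h3' : l ≠ l' ∨ r ≠ r' := by
        rcases h3 with h3 | h3
        · left; rw [hl, hl']; exact_mod_cast h3
        · right; rw [hr, hr']; exact_mod_cast h3
      have := nested_lt hx1' hx2' h1' h2' h3'
      linarith
    · have h1' : l' ≤ l := by rw [hl, hl']; exact_mod_cast h1
      have h2' : r ≤ r' := by rw [hr, hr']; exact_mod_cast h2
      have h3' : l' ≠ l ∨ r' ≠ r := by
        rcases h3 with h3 | h3
        · left; rw [hl, hl']; exact_mod_cast (Ne.symm h3)
        · right; rw [hr, hr']; exact_mod_cast (Ne.symm h3)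
      have := nested_lt hx1 hx2 h1' h2' h3'
      linarith
  · rcases side_cases e with h1 | h1 <;> rcases side_cases e' with h2 | h2
    · exact hside (h1.trans h2.symm)
    · rw [h1, h2] at hy
      push_cast at hy
      linarith
    · rw [h1, h2] at hy
      push_cast at hy
      linarith
    · exact hside (h1.trans h2.symm)

theorem HG_planar : HG.IsPlanar := by
  refine ⟨fun x => ((pos x : ℝ), 0), arc, ?_, ?_, ?_, arc_disj⟩
  · intro x y h
    have h1 := congrArg Prod.fst h
    simp only at h1
    exact pos_inj (by exact_mod_cast h1)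
  · intro e
    have hlr : (lft e : ℝ) < rgt e := by exact_mod_cast lft_lt_rgt e
    refine ⟨?_, ?_, ?_⟩
    · apply Continuous.continuousOn
      unfold arc
      fun_prop
    · intro t _ t' _ h
      have h1 := congrArg Prod.fst h
      simp only [arc] at h1
      have h2 : (t - t') * ((rgt e : ℝ) - lft e) = 0 := by linarith
      rcases mul_eq_zero.mp h2 with h3 | h3
      · linarith
      · linarith
    · rw [arc_zero, arc_one]
      change Sym2.map _ s(hEnd1 e, hEnd2 e) = _
      rw [Sym2.map_mk]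
      rcases le_total (pos (hEnd1 e)) (pos (hEnd2 e)) with h | h
      · rw [show lft e = pos (hEnd1 e) from min_eq_left h,
          show rgt e = pos (hEnd2 e) from max_eq_right h]
      · rw [show lft e = pos (hEnd2 e) from min_eq_right h,
          show rgt e = pos (hEnd1 e) from max_eq_left h, Sym2.eq_swap]
  · intro e t ht x h
    obtain ⟨ht0, ht1⟩ := ht
    have hlr : (lft e : ℝ) < rgt e := by exact_mod_cast lft_lt_rgt e
    have hy := congrArg Prod.snd h
    simp only [arc] at hy
    have hpos : 0 < t * (1 - t) * ((rgt e : ℝ) - lft e) ^ 2 := by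
      apply mul_pos (mul_pos ht0 (by linarith))
      apply pow_pos
      linarith
    rcases side_cases e with h1 | h1 <;> rw [h1] at hy <;> push_cast at hy <;> linarith

end Pool.Agent.Helper61.EP
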