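import Pool.Agent.Helper61.EP.Exist2
import Pool.Agent.Helper61.EP.Planar

/-!
# `H` does not have the edge-Erdős–Pósa property
-/

namespace Pool.Agent.Helper61.EP

/-! ### pigeonhole -/

theorem pigeon {α ι : Type*} [Finite α] [Fintype ι] (f : α → Option ι) (X : Set α)
    (h : X.ncard + 2 ≤ Fintype.card ι) :
    ∃ i1 i2, i1 ≠ i2 ∧ ∀ e, (f e = some i1 ∨ f e = some i2) → e ∉ X := by
  classical
  have hfin : (f '' X).Finite := (Set.toFinite X).image f
  let Y : Set ι := {i | some i ∈ f '' X}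
  have h1 : Y.ncard ≤ X.ncard := by
    have : (some '' Y).ncard ≤ (f '' X).ncard := by
      apply Set.ncard_le_ncard _ hfin
      rintro _ ⟨i, hi, rfl⟩
      exact hi
    rw [Set.ncard_image_of_injective Y (Option.some_injective ι)] at this
    exact this.trans (Set.ncard_image_le (Set.toFinite X))
  have h2 : Y.ncard + Yᶜ.ncard = Nat.card ι := Set.ncard_add_ncard_compl Y
  rw [Nat.card_eq_fintype_card] at h2
  have h3 : 1 < Yᶜ.ncard := by omega
  rw [Set.one_lt_ncard (Set.toFinite _)] at h3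
  obtain ⟨i1, hi1, i2, hi2, hne⟩ := h3
  refine ⟨i1, i2, hne, ?_⟩
  rintro e (he | he) hX
  · exact hi1 ⟨e, hX, he⟩
  · exact hi2 ⟨e, hX, he⟩

variable {n q m : ℕ}

/-- the level of an edge -/
def levE : GE n q m → Option (Fin (n + 6))
  | .aal _ _ => none
  | .alal _ _ => none
  | .row j _ => some j
  | .lo j _ => some j
  | .hi j _ => some j
  | .sp j => some j
  | .lf j => some j
  | .rt j => some j

/-- the column of an edge -/
def colE (i : Fin (n + 6)) : GE n q m → Option (Fin (q + 1))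
  | .aal _ _ => none
  | .alal _ _ => none
  | .row j t => if j = i then some ⟨t.val / 2, by omega⟩ else none
  | .lo j l => if j = i then some l else none
  | .hi j l => if j = i then some l else none
  | .sp _ => none
  | .lf _ => none
  | .rt _ => none

def parA (i : Fin 5) : GE n q m → Option (Fin m)
  | .aal i' k => if i' = i then some k else none
  | _ => none

def parB (i : Fin 4) : GE n q m → Option (Fin m)
  | .alal i' k => if i' = i then some k else none
  | _ => none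

theorem exists_minor (X : Set (GE n q m)) (hn : X.ncard + 2 ≤ n + 6) (hq : X.ncard + 2 ≤ q + 1)
    (hm : X.ncard + 2 ≤ m) : IsMinor HG (delG X) := by
  obtain ⟨j, _, _, hj⟩ := pigeon (levE (n := n) (q := q) (m := m)) X
    (by rw [Fintype.card_fin]; exact hn)
  have hc : ∀ i : Fin (n + 6), ∃ l1 l2, l1 ≠ l2 ∧
      ∀ e, (colE (m := m) i e = some l1 ∨ colE i e = some l2) → e ∉ X := fun i =>
    pigeon (colE i) X (by rw [Fintype.card_fin]; exact hq)
  choose l1 l2 hl hl' using hc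
  have hA : ∀ i : Fin 5, ∃ a b, a ≠ b ∧
      ∀ e, (parA (n := n) (q := q) i e = some a ∨ parA i e = some b) → e ∉ X := fun i =>
    pigeon (parA i) X (by rw [Fintype.card_fin]; exact hm)
  choose k1 k2 hk hk' using hA
  have hB : ∀ i : Fin 4, ∃ a b, a ≠ b ∧
      ∀ e, (parB (n := n) (q := q) i e = some a ∨ parB i e = some b) → e ∉ X := fun i =>
    pigeon (parB i) X (by rw [Fintype.card_fin]; exact hm)
  choose k3 k4 hkk hkk' using hB
  have G : Good X j l1 l2 k1 k2 k3 k4 := by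
    refine ⟨fun i => hj _ (Or.inl rfl), fun i => hj _ (Or.inl rfl), hj _ (Or.inl rfl),
      hj _ (Or.inl rfl), hj _ (Or.inl rfl), hl, ?_, ?_, ?_, ?_, ?_, ?_, hk, hkk, ?_, ?_, ?_, ?_⟩
    · exact fun i => hl' i _ (Or.inl (if_pos rfl))
    · exact fun i => hl' i _ (Or.inr (if_pos rfl))
    · exact fun i => hl' i _ (Or.inl (if_pos rfl))
    · exact fun i => hl' i _ (Or.inr (if_pos rfl))
    · intro i
      refine hl' i _ (Or.inl ?_)
      simp only [colE, if_true, Option.some.injEq]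
      exact Fin.ext (by simp only; omega)
    · intro i
      refine hl' i _ (Or.inr ?_)
      simp only [colE, if_true, Option.some.injEq]
      exact Fin.ext (by simp only; omega)
    · exact fun i => hk' i _ (Or.inl (if_pos rfl))
    · exact fun i => hk' i _ (Or.inr (if_pos rfl))
    · exact fun i => hkk' i _ (Or.inl (if_pos rfl))
    · exact fun i => hkk' i _ (Or.inr (if_pos rfl))
  exact minor_of_good G

theorem exists_minor' (B : ℕ) (X : Set (GE B (B + 1) (B + 2))) (h : X.ncard ≤ B) :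
    IsMinor HG (delG X) :=
  exists_minor X (by omega) (by omega) (by omega)

/-! ### transport of a model into the host graph -/

section

variable {K : MGraph} (φ : Emb K (hostG n q m))

theorem step_transport {S : Set K.V} {p r : K.V} (h : StepIn K S p r) :
    φ.fV p ∈ φ.fV '' S ∧ φ.fV r ∈ φ.fV '' S ∧
      ∃ e ∈ Set.range φ.fE, s(e1 e, e2 e) = s(φ.fV p, φ.fV r) := by
  obtain ⟨hp, hr, e, he⟩ := h
  refine ⟨⟨p, hp, rfl⟩, ⟨r, hr, rfl⟩, φ.fE e, ⟨e, rfl⟩, ?_⟩
  have h1 := φ.comm e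
  rw [he] at h1
  exact h1

theorem connE_transport {S : Set K.V} (h : ConnectedOn K S) :
    ConnE (Set.range φ.fE) (φ.fV '' S) := by
  refine ⟨h.1.image _, ?_⟩
  rintro _ ⟨u, hu, rfl⟩ _ ⟨v, hv, rfl⟩
  exact Relation.ReflTransGen.lift φ.fV (fun _ _ hs => step_transport φ hs) _ _ (h.2 u hu v hv)

theorem joins_transport {S T : Set K.V} {e : K.E} {u v : K.V} (hu : u ∈ S) (hv : v ∈ T)
    (h : K.ends e = s(u, v)) : Joins (φ.fV '' S) (φ.fV '' T) (φ.fE e) := by
  have h1 := φ.comm e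
  rw [h] at h1
  rcases Sym2.eq_iff.mp h1 with ⟨h2, h3⟩ | ⟨h2, h3⟩
  · exact Or.inl ⟨⟨u, hu, h2.symm⟩, ⟨v, hv, h3.symm⟩⟩
  · exact Or.inr ⟨⟨v, hv, h2.symm⟩, ⟨u, hu, h3.symm⟩⟩

/-- what an expansion of `H` uses in the host graph -/
theorem expansion_uses (hK : IsMinor HG K) :
    (∃ j, (∀ l, GE.row j l ∈ Set.range φ.fE) ∧ GE.sp j ∈ Set.range φ.fE) ∧
      ∀ j, GE.sp j ∈ Set.range φ.fE ∨ ∃ l, GE.row j l ∈ Set.range φ.fE := by
  obtain ⟨S, f, hS, hd, hf, he⟩ := hK
  have hc : ∀ x, ConnE (Set.range φ.fE) (φ.fV '' S x) := fun x => connE_transport φ (hS x)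
  have hdd : ∀ x y : HV, x ≠ y → Disjoint (φ.fV '' S x) (φ.fV '' S y) := fun x y hxy =>
    Set.disjoint_image_of_injective φ.injV (hd x y hxy)
  have hj : ∀ e : HE, Joins (φ.fV '' S (hEnd1 e)) (φ.fV '' S (hEnd2 e)) (φ.fE (f e)) := by
    intro e
    obtain ⟨x, y, u, v, hxy, hu, hv, huv⟩ := he e
    rcases Sym2.eq_iff.mp hxy with ⟨rfl, rfl⟩ | ⟨rfl, rfl⟩
    · exact joins_transport φ hu hv huv
    · exact (joins_transport φ hu hv huv).symm
  have hinj : ∀ e e' : HE, e ≠ e' → φ.fE (f e) ≠ φ.fE (f e') := fun e e' hne h =>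
    hne (hf (φ.injE h))
  have hs : ∀ e : HE, Sgl (Set.range φ.fE) (φ.fV '' S (hEnd1 e)) (φ.fV '' S (hEnd2 e)) :=
    fun e => ⟨_, ⟨f e, rfl⟩, hj e⟩
  refine host_structure (C := φ.fV '' S HV.c) (V := fun i => φ.fV '' S (HV.v i))
    (D := fun i => φ.fV '' S (HV.d i)) (W := fun i => φ.fV '' S (HV.w i))
    (hc _) (fun i => hc _) (fun i => hc _) (fun i => hc _)
    (fun i => hdd _ _ (by simp)) (fun i => hdd _ _ (by simp)) (fun i => hdd _ _ (by simp))
    (fun i j hij => hdd _ _ (by simpa using hij)) (fun i j => hdd _ _ (by simp))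
    (fun i j => hdd _ _ (by simp)) (hdd _ _ (by simp))
    (fun i j => hdd _ _ (by simp)) (fun i j hij => hdd _ _ (by simpa using hij))
    ?_ ?_ (fun i => hs (.cd i)) (hs .dd) ?_
  · intro i
    exact ⟨_, ⟨f (.cv i true), rfl⟩, _, ⟨f (.cv i false), rfl⟩, hinj _ _ (by simp),
      hj (.cv i true), hj (.cv i false)⟩
  · intro i
    exact ⟨_, ⟨f (.vv i true), rfl⟩, _, ⟨f (.vv i false), rfl⟩, hinj _ _ (by simp),
      hj (.vv i true), hj (.vv i false)⟩
  · intro i
    exact ⟨_, ⟨f (.ww i true), rfl⟩, _, ⟨f (.ww i false), rfl⟩, hinj _ _ (by simp),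
      hj (.ww i true), hj (.ww i false)⟩

end

theorem no_two {K K' : MGraph} (hK : IsMinor HG K) (hK' : IsMinor HG K')
    (φ : Emb K (hostG n q m)) (φ' : Emb K' (hostG n q m)) :
    ¬ Disjoint (Set.range φ.fE) (Set.range φ'.fE) := by
  intro hd
  obtain ⟨⟨j, h1, h2⟩, _⟩ := expansion_uses φ hK
  obtain ⟨_, h3⟩ := expansion_uses φ' hK'
  rcases h3 j with h | ⟨l, h⟩
  · exact Set.disjoint_left.mp hd h2 h
  · exact Set.disjoint_left.mp hd (h1 l) h

theorem HG_not_EP : ¬ EdgeErdosPosa (fun G => IsMinor HG G) := by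
  rintro ⟨f, hf⟩
  obtain ⟨B, hB⟩ := exists_nat_ge (f 2)
  rcases hf (hostG B (B + 1) (B + 2)) 2 with ⟨K, φ, hK, hd⟩ | ⟨X, hX, hhit⟩
  · exact no_two (hK 0) (hK 1) (φ 0) (φ 1) (hd 0 1 (by decide))
  · have hXB : X.ncard ≤ B := by
      have : (X.ncard : ℝ) ≤ (B : ℝ) := hX.trans hB
      exact_mod_cast this
    obtain ⟨e, he⟩ := hhit _ (exists_minor' B X hXB) (delEmb X)
    exact e.2 he

theorem main : ∃ H : MGraph, H.IsConnected ∧ H.IsPlanar ∧
    (∃ r : ℕ, 1 ≤ r ∧ IsMinor H (condensedWall r)) ∧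
    ¬ EdgeErdosPosa (fun G => IsMinor H G) :=
  ⟨HG, HG_connected, HG_planar, ⟨19, by norm_num, HG_minor_wall⟩, HG_not_EP⟩

end Pool.Agent.Helper61.EP
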