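import Pool.Agent.Helper61.EP.Defs

/-!
# The graph `H`
-/

namespace Pool.Agent.Helper61.EP

/-- vertices of `H`: centre `c` of the fan, `v i` the path of the fan, `d i` the two further
vertices of the triangle, `w i` the 5-cycle -/
inductive HV : Type
  | c
  | v (i : Fin 5)
  | d (i : Fin 2)
  | w (i : Fin 5)
  deriving DecidableEq, Fintype

/-- edges of `H`: the edges of the fan and of the 5-cycle are doubled -/
inductive HE : Type
  | cv (i : Fin 5) (b : Bool)
  | vv (i : Fin 4) (b : Bool)
  | cd (i : Fin 2)
  | dd
  | ww (i : Fin 5) (b : Bool)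
  | br
  deriving DecidableEq, Fintype

def hEnd1 : HE → HV
  | .cv _ _ => .c
  | .vv i _ => .v i.castSucc
  | .cd _ => .c
  | .dd => .d 0
  | .ww i _ => .w i
  | .br => .d 0

def hEnd2 : HE → HV
  | .cv i _ => .v i
  | .vv i _ => .v i.succ
  | .cd i => .d i
  | .dd => .d 1
  | .ww i _ => .w (i + 1)
  | .br => .w 0

theorem hEnd_ne : ∀ e, hEnd1 e ≠ hEnd2 e := by decide

/-- the graph `H` -/
def HG : MGraph where
  V := HV
  E := HE
  finV := inferInstance
  finE := inferInstance
  ends e := s(hEnd1 e, hEnd2 e)
  loopless := by
    intro e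
    rw [Sym2.mk_isDiag_iff]
    exact hEnd_ne e

/-! ### `H` is a minor of the condensed wall of size 19 -/

/-- the branch set containing `z^t` and the row `t` (rows and hubs are numbered from 1 and 0) -/
def ownT (t : ℕ) : Option HV :=
  if t = 0 then none
  else if t ≤ 10 then some (.v ⟨(t - 1) / 2 % 5, Nat.mod_lt _ (by norm_num)⟩)
  else if t = 11 then some (.d 0)
  else if t = 12 then some (.d 1)
  else if t = 13 then none
  else if t ≤ 15 then some (.w 1)
  else if t = 16 then some (.w 2)
  else if t = 17 then some (.w 3)
  else some (.w 4)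

def ownW : WV 19 → Option HV
  | .u j _ => ownT (j.val + 1)
  | .z i => ownT i.val
  | .a => some .c
  | .b => some (.w 0)

def wallS (x : HV) : Set (WV 19) := {p | ownW p = some x}

def wallF : HE → WE 19
  | .cv i b => .left ⟨2 * i.val + (if b then 1 else 0), by split_ifs <;> omega⟩
  | .vv i b => if b then .up ⟨2 * i.val + 2, by omega⟩ 0 else .spine ⟨2 * i.val + 2, by omega⟩
  | .cd i => .left ⟨10 + i.val, by omega⟩
  | .dd => .spine 11
  | .ww 0 b => if b then .right 13 else .right 14
  | .ww 1 b => if b then .up 15 0 else .spine 15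
  | .ww 2 b => if b then .up 16 0 else .spine 16
  | .ww 3 b => if b then .up 17 0 else .spine 17
  | .ww 4 b => if b then .right 17 else .right 18
  | .br => .right 10

theorem wallF_inj : Function.Injective wallF := by
  decide +kernel

theorem wallF_ends : ∀ e, (ownW (wEnd1 19 (wallF e)) = some (hEnd1 e) ∧
      ownW (wEnd2 19 (wallF e)) = some (hEnd2 e)) ∨
    (ownW (wEnd1 19 (wallF e)) = some (hEnd2 e) ∧
      ownW (wEnd2 19 (wallF e)) = some (hEnd1 e)) := by
  decide +kernel

theorem rtg_symm {α : Type*} {r : α → α → Prop} (hr : ∀ a b, r a b → r b a) {a b : α}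
    (h : Relation.ReflTransGen r a b) : Relation.ReflTransGen r b a := by
  induction h with
  | refl => exact Relation.ReflTransGen.refl
  | tail _ hbc ih => exact (Relation.ReflTransGen.single (hr _ _ hbc)).trans ih

theorem stepIn_symm (G : MGraph) (S : Set G.V) : ∀ u v, StepIn G S u v → StepIn G S v u := by
  rintro u v ⟨hu, hv, e, he⟩
  exact ⟨hv, hu, e, by rw [he, Sym2.eq_swap]⟩

/-- connectedness from a root -/
theorem connectedOn_of_root (G : MGraph) (S : Set G.V) (r : G.V) (hr : r ∈ S)
    (h : ∀ v ∈ S, Relation.ReflTransGen (StepIn G S) r v) : ConnectedOn G S := by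
  refine ⟨⟨r, hr⟩, fun u hu v hv => ?_⟩
  exact (rtg_symm (stepIn_symm G S) (h u hu)).trans (h v hv)

theorem step_of_wall {S : Set (WV 19)} (e : WE 19) {x y : WV 19} (hx : x ∈ S) (hy : y ∈ S)
    (h : (wEnd1 19 e = x ∧ wEnd2 19 e = y) ∨ (wEnd1 19 e = y ∧ wEnd2 19 e = x)) :
    StepIn (condensedWall 19) S x y := by
  refine ⟨hx, hy, e, ?_⟩
  change s(wEnd1 19 e, wEnd2 19 e) = s(x, y)
  rcases h with ⟨h1, h2⟩ | ⟨h1, h2⟩
  · rw [h1, h2]
  · rw [h1, h2, Sym2.eq_swap]

/-- each vertex of row `t` is connected to `z^t` inside `T_t` -/
theorem row_to_hub {x : HV} (j : Fin 19) (i : Fin 38) (h : ownT (j.val + 1) = some x) :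
    Relation.ReflTransGen (StepIn (condensedWall 19) (wallS x)) (.z j.succ) (.u j i) := by
  have hz : (WV.z j.succ : WV 19) ∈ wallS x := by
    change ownT j.succ.val = some x
    rw [Fin.val_succ]
    exact h
  have hu : ∀ i, (WV.u j i : WV 19) ∈ wallS x := fun i => h
  have heven : ∀ k : Fin 19, StepIn (condensedWall 19) (wallS x) (.z j.succ)
      (.u j ⟨2 * k.val, by omega⟩) := fun k =>
    step_of_wall (.down j k) hz (hu _) (Or.inl ⟨rfl, rfl⟩)
  by_cases hi : i.val % 2 = 0
  · have : i = ⟨2 * (⟨i.val / 2, by omega⟩ : Fin 19).val, by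
      simp only; omega⟩ := Fin.ext (by simp only; omega)
    rw [this]
    exact Relation.ReflTransGen.single (heven _)
  · have h1 := heven ⟨i.val / 2, by omega⟩
    refine (Relation.ReflTransGen.single h1).tail ?_
    refine step_of_wall (.row j ⟨2 * (i.val / 2), by omega⟩) (hu _) (hu _) (Or.inl ⟨rfl, ?_⟩)
    simp only [wEnd2, WV.u.injEq, true_and]
    exact Fin.ext (by simp only; omega)

theorem wall_conn (x : HV) : ConnectedOn (condensedWall 19) (wallS x) := by
  -- a root hub index for each `x`
  have hub : ∀ (t : Fin 20), ownT t.val = some x →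
      (∀ t' : Fin 20, ownT t'.val = some x → t'.val = t.val ∨ t'.val = t.val + 1) →
      (WV.a ∉ wallS x) → (WV.b ∉ wallS x) → ConnectedOn (condensedWall 19) (wallS x) := by
    intro t ht htt ha hb
    have hz : (WV.z t : WV 19) ∈ wallS x := ht
    have hubs : ∀ t' : Fin 20, ownT t'.val = some x →
        Relation.ReflTransGen (StepIn (condensedWall 19) (wallS x)) (.z t) (.z t') := by
      intro t' ht'
      rcases htt t' ht' with h | h
      · have : t' = t := Fin.ext h
        subst this
        exact Relation.ReflTransGen.refl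
      · apply Relation.ReflTransGen.single
        have hlt : t.val < 19 := by omega
        refine step_of_wall (.spine ⟨t.val, hlt⟩) hz ht' (Or.inl ⟨rfl, ?_⟩)
        simp only [wEnd2, WV.z.injEq]
        exact Fin.ext (by simp [h])
    refine connectedOn_of_root _ _ (.z t) hz ?_
    intro p hp
    cases p with
    | a => exact absurd hp ha
    | b => exact absurd hp hb
    | z t' => exact hubs t' hp
    | u j i => exact (hubs j.succ (by rw [Fin.val_succ]; exact hp)).trans (row_to_hub j i hp)
  cases x with
  | c =>
    have hone : ∀ p : WV 19, ownW p = some .c → p = .a := by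
      intro p
      cases p with
      | a => exact fun _ => rfl
      | b => exact fun h => absurd h (by decide)
      | z t =>
        intro h
        exfalso
        revert h
        change ownT t.val = some .c → False
        revert t
        decide +kernel
      | u j i =>
        intro h
        exfalso
        revert h
        change ownT (j.val + 1) = some .c → False
        revert j
        decide +kernel
    refine connectedOn_of_root _ _ (.a) rfl ?_
    intro p hp
    obtain rfl := hone p hp
    exact Relation.ReflTransGen.refl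
  | v i =>
    have h1 : ∀ i : Fin 5, ownT (2 * i.val + 1) = some (.v i) := by decide +kernel
    have h2 : ∀ (i : Fin 5) (t' : Fin 20), ownT t'.val = some (.v i) →
        t'.val = 2 * i.val + 1 ∨ t'.val = 2 * i.val + 1 + 1 := by decide +kernel
    refine hub ⟨2 * i.val + 1, by omega⟩ (h1 i) (h2 i) ?_ ?_
    · intro h; cases h
    · intro h; cases h
  | d i =>
    have h1 : ∀ i : Fin 2, ownT (11 + i.val) = some (.d i) := by decide +kernel
    have h2 : ∀ (i : Fin 2) (t' : Fin 20), ownT t'.val = some (.d i) →
        t'.val = 11 + i.val ∨ t'.val = 11 + i.val + 1 := by decide +kernel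
    refine hub ⟨11 + i.val, by omega⟩ (h1 i) (h2 i) ?_ ?_
    · intro h; cases h
    · intro h; cases h
  | w i =>
    by_cases hi : i = 0
    · subst hi
      have hone : ∀ p : WV 19, ownW p = some (.w 0) → p = .b := by
        intro p
        cases p with
        | b => exact fun _ => rfl
        | a => exact fun h => absurd h (by decide)
        | z t =>
          intro h
          exfalso
          revert h
          change ownT t.val = some (.w 0) → False
          revert t
          decide +kernel
        | u j i =>
          intro h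
          exfalso
          revert h
          change ownT (j.val + 1) = some (.w 0) → False
          revert j
          decide +kernel
      refine connectedOn_of_root _ _ (.b) rfl ?_
      intro p hp
      obtain rfl := hone p hp
      exact Relation.ReflTransGen.refl
    · have hcase : ∀ i : Fin 5, i ≠ 0 → ∃ t : Fin 20, ownT t.val = some (.w i) ∧
          ∀ t' : Fin 20, ownT t'.val = some (.w i) → t'.val = t.val ∨ t'.val = t.val + 1 := by
        decide +kernel
      obtain ⟨t, h1, h2⟩ := hcase i hi
      refine hub t h1 h2 ?_ ?_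
      · intro h; cases h
      · intro h
        have : (some (HV.w 0)) = some (HV.w i) := h
        simp only [Option.some.injEq, HV.w.injEq] at this
        exact hi this.symm

theorem wallS_disjoint (x y : HV) (hxy : x ≠ y) : Disjoint (wallS x) (wallS y) := by
  rw [Set.disjoint_left]
  intro p hp hp'
  have h1 : ownW p = some x := hp
  have h2 : ownW p = some y := hp'
  rw [h1] at h2
  exact hxy (Option.some.inj h2)

theorem HG_minor_wall : IsMinor HG (condensedWall 19) := by
  refine ⟨wallS, wallF, wall_conn, wallS_disjoint, wallF_inj, ?_⟩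
  · intro e
    rcases wallF_ends e with ⟨h1, h2⟩ | ⟨h1, h2⟩
    · exact ⟨hEnd1 e, hEnd2 e, wEnd1 19 (wallF e), wEnd2 19 (wallF e), rfl, h1, h2, rfl⟩
    · exact ⟨hEnd1 e, hEnd2 e, wEnd2 19 (wallF e), wEnd1 19 (wallF e), rfl, h2, h1,
        Sym2.eq_swap⟩

/-! ### `H` is connected -/

theorem HG_connected : HG.IsConnected := by
  have st : ∀ e : HE, StepIn HG Set.univ (hEnd1 e) (hEnd2 e) := fun e =>
    ⟨trivial, trivial, e, rfl⟩
  have hc : ∀ x : HG.V, Relation.ReflTransGen (StepIn HG Set.univ) HV.c x := by
    have hw0 : Relation.ReflTransGen (StepIn HG Set.univ) HV.c (HV.w 0) :=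
      (Relation.ReflTransGen.single (st (.cd 0))).tail (st .br)
    have hw1 := hw0.tail (st (.ww 0 true))
    have hw2 := hw1.tail (st (.ww 1 true))
    have hw3 := hw2.tail (st (.ww 2 true))
    have hw4 := hw3.tail (st (.ww 3 true))
    intro x
    cases x with
    | c => exact Relation.ReflTransGen.refl
    | v i => exact Relation.ReflTransGen.single (st (.cv i true))
    | d i => exact Relation.ReflTransGen.single (st (.cd i))
    | w i =>
      have hi : i = 0 ∨ i = 1 ∨ i = 2 ∨ i = 3 ∨ i = 4 := by
        revert i
        decide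
      rcases hi with rfl | rfl | rfl | rfl | rfl
      · exact hw0
      · exact hw1
      · exact hw2
      · exact hw3
      · exact hw4
  exact connectedOn_of_root _ _ HV.c trivial (fun v _ => hc v)

end Pool.Agent.Helper61.EP
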