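import Mathlib

/-!
# The host graph and the proof that it has no two edge-disjoint expansions
-/

namespace Pool.Agent.Helper61.EP

/-- vertices of the host graph -/
inductive GV (n q : ℕ) : Type
  | a
  | al (i : Fin 5)
  | z (i : Fin (n + 6))
  | u (j : Fin (n + 6)) (i : Fin (2 * q + 2))
  deriving DecidableEq, Fintype

/-- edges of the host graph -/
inductive GE (n q m : ℕ) : Type
  | aal (i : Fin 5) (k : Fin m)
  | alal (i : Fin 4) (k : Fin m)
  | row (j : Fin (n + 6)) (i : Fin (2 * q + 1))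
  | lo (j : Fin (n + 6)) (i : Fin (q + 1))
  | hi (j : Fin (n + 6)) (i : Fin (q + 1))
  | sp (j : Fin (n + 6))
  | lf (j : Fin (n + 6))
  | rt (j : Fin (n + 6))
  deriving DecidableEq, Fintype

/-- cyclic successor -/
def nx {n : ℕ} (j : Fin (n + 6)) : Fin (n + 6) :=
  if h : j.val + 1 < n + 6 then ⟨j.val + 1, h⟩ else ⟨0, by omega⟩

theorem nx_val {n : ℕ} (j : Fin (n + 6)) :
    (j.val + 1 < n + 6 ∧ (nx j).val = j.val + 1) ∨ (j.val = n + 5 ∧ (nx j).val = 0) := by
  unfold nx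
  have := j.isLt
  split_ifs with h
  · exact Or.inl ⟨h, rfl⟩
  · exact Or.inr ⟨by omega, rfl⟩

variable {n q m : ℕ}

def e1 : GE n q m → GV n q
  | .aal _ _ => .a
  | .alal i _ => .al i.castSucc
  | .row j i => .u j ⟨i.val, by omega⟩
  | .lo j _ => .z j
  | .hi j _ => .z (nx j)
  | .sp j => .z j
  | .lf _ => .a
  | .rt _ => .a

def e2 : GE n q m → GV n q
  | .aal i _ => .al i
  | .alal i _ => .al i.succ
  | .row j i => .u j ⟨i.val + 1, by omega⟩
  | .lo j i => .u j ⟨2 * i.val + 1, by omega⟩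
  | .hi j i => .u j ⟨2 * i.val, by omega⟩
  | .sp j => .z (nx j)
  | .lf j => .u j ⟨0, by omega⟩
  | .rt j => .u j ⟨2 * q + 1, by omega⟩

/-- connected in the subgraph with edge set `E'` -/
def ConnE (E' : Set (GE n q m)) (S : Set (GV n q)) : Prop :=
  S.Nonempty ∧ ∀ u ∈ S, ∀ v ∈ S,
    Relation.ReflTransGen (fun p r => p ∈ S ∧ r ∈ S ∧ ∃ e ∈ E', s(e1 e, e2 e) = s(p, r)) u v

/-- the edge `e` joins `S` and `T` -/
def Joins (S T : Set (GV n q)) (e : GE n q m) : Prop :=
  (e1 e ∈ S ∧ e2 e ∈ T) ∨ (e1 e ∈ T ∧ e2 e ∈ S)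

def Sgl (E' : Set (GE n q m)) (S T : Set (GV n q)) : Prop := ∃ e ∈ E', Joins S T e

def Dbl (E' : Set (GE n q m)) (S T : Set (GV n q)) : Prop :=
  ∃ e ∈ E', ∃ e' ∈ E', e ≠ e' ∧ Joins S T e ∧ Joins S T e'

theorem Joins.symm {S T : Set (GV n q)} {e : GE n q m} (h : Joins S T e) : Joins T S e := by
  rcases h with h | h
  · exact Or.inr h
  · exact Or.inl h

theorem Sgl.symm {E' : Set (GE n q m)} {S T : Set (GV n q)} (h : Sgl E' S T) : Sgl E' T S := by
  obtain ⟨e, he, h⟩ := h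
  exact ⟨e, he, h.symm⟩

theorem Dbl.symm {E' : Set (GE n q m)} {S T : Set (GV n q)} (h : Dbl E' S T) : Dbl E' T S := by
  obtain ⟨e, he, e', he', hne, h, h'⟩ := h
  exact ⟨e, he, e', he', hne, h.symm, h'.symm⟩

theorem Dbl.sgl {E' : Set (GE n q m)} {S T : Set (GV n q)} (h : Dbl E' S T) : Sgl E' S T := by
  obtain ⟨e, he, e', he', hne, h, h'⟩ := h
  exact ⟨e, he, h⟩

variable {E' : Set (GE n q m)}

theorem ConnE.color {S : Set (GV n q)} (h : ConnE E' S) (φ : GV n q → Prop)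
    (hφ : ∀ e ∈ E', e1 e ∈ S → e2 e ∈ S → (φ (e1 e) ↔ φ (e2 e))) {x y : GV n q} (hx : x ∈ S)
    (hy : y ∈ S) : φ x ↔ φ y := by
  have h1 := h.2 x hx y hy
  clear hy
  induction h1 with
  | refl => exact Iff.rfl
  | tail _ hbc ih =>
    obtain ⟨hb, hc, e, he, hs⟩ := hbc
    refine ih.trans ?_
    rw [Sym2.eq_iff] at hs
    rcases hs with ⟨h1, h2⟩ | ⟨h1, h2⟩
    · subst h1
      subst h2
      exact hφ e he hb hc
    · subst h1
      subst h2
      exact (hφ e he hc hb).symm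

theorem ConnE.union {S T : Set (GV n q)} (hS : ConnE E' S) (hT : ConnE E' T) (h : Sgl E' S T) :
    ConnE E' (S ∪ T) := by
  obtain ⟨e, he, hj⟩ := h
  have mono1 : ∀ u v, Relation.ReflTransGen
      (fun p r => p ∈ S ∧ r ∈ S ∧ ∃ e ∈ E', s(e1 e, e2 e) = s(p, r)) u v →
      Relation.ReflTransGen
      (fun p r => p ∈ S ∪ T ∧ r ∈ S ∪ T ∧ ∃ e ∈ E', s(e1 e, e2 e) = s(p, r)) u v := by
    intro u v huv
    refine Relation.ReflTransGen.mono ?_ u v huv
    exact fun p r hpr => ⟨Or.inl hpr.1, Or.inl hpr.2.1, hpr.2.2⟩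
  have mono2 : ∀ u v, Relation.ReflTransGen
      (fun p r => p ∈ T ∧ r ∈ T ∧ ∃ e ∈ E', s(e1 e, e2 e) = s(p, r)) u v →
      Relation.ReflTransGen
      (fun p r => p ∈ S ∪ T ∧ r ∈ S ∪ T ∧ ∃ e ∈ E', s(e1 e, e2 e) = s(p, r)) u v := by
    intro u v huv
    refine Relation.ReflTransGen.mono ?_ u v huv
    exact fun p r hpr => ⟨Or.inr hpr.1, Or.inr hpr.2.1, hpr.2.2⟩
  obtain ⟨x, hx, y, hy, hxy, hyx⟩ : ∃ x ∈ S, ∃ y ∈ T,
      (∃ e ∈ E', s(e1 e, e2 e) = s(x, y)) ∧ (∃ e ∈ E', s(e1 e, e2 e) = s(y, x)) := by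
    rcases hj with ⟨h1, h2⟩ | ⟨h1, h2⟩
    · exact ⟨e1 e, h1, e2 e, h2, ⟨e, he, rfl⟩, ⟨e, he, Sym2.eq_swap⟩⟩
    · exact ⟨e2 e, h2, e1 e, h1, ⟨e, he, Sym2.eq_swap⟩, ⟨e, he, rfl⟩⟩
  refine ⟨hS.1.mono Set.subset_union_left, ?_⟩
  intro u hu v hv
  rcases hu with hu | hu <;> rcases hv with hv | hv
  · exact mono1 _ _ (hS.2 u hu v hv)
  · exact ((mono1 _ _ (hS.2 u hu x hx)).tail ⟨Or.inl hx, Or.inr hy, hxy⟩).trans
      (mono2 _ _ (hT.2 y hy v hv))
  · exact ((mono2 _ _ (hT.2 u hu y hy)).tail ⟨Or.inr hy, Or.inl hx, hyx⟩).trans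
      (mono1 _ _ (hS.2 x hx v hv))
  · exact mono2 _ _ (hT.2 u hu v hv)

/-- in the necklace: avoids `a` and the `al i` -/
def Nk (S : Set (GV n q)) : Prop := GV.a ∉ S ∧ ∀ i, GV.al i ∉ S

/-- hub-free -/
def HF (S : Set (GV n q)) : Prop := ∀ x, GV.z x ∉ S

theorem Nk.union {S T : Set (GV n q)} (hS : Nk S) (hT : Nk T) : Nk (S ∪ T) :=
  ⟨fun h => h.elim hS.1 hT.1, fun i h => h.elim (hS.2 i) (hT.2 i)⟩

/-- removing two hubs `z p`, `z t` separates the necklace -/
theorem sep_hubs {S : Set (GV n q)} (hS : ConnE E' S) (hN : GV.a ∉ S) {p t : Fin (n + 6)}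
    (hp : GV.z p ∉ S) (ht : GV.z t ∉ S) {s s' : Fin (n + 6)} (hs : GV.z s ∈ S)
    (hs' : GV.z s' ∈ S) :
    ((min p.val t.val ≤ s.val ∧ s.val < max p.val t.val) ↔
      (min p.val t.val ≤ s'.val ∧ s'.val < max p.val t.val)) := by
  have key := hS.color (fun v => match v with
    | .z x => min p.val t.val ≤ x.val ∧ x.val < max p.val t.val
    | .u j _ => min p.val t.val ≤ j.val ∧ j.val < max p.val t.val
    | _ => False) ?_ hs hs'
  · exact key
  · intro e _ h1 h2
    have hpp := p.isLt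
    have htt := t.isLt
    cases e with
    | aal i k => exact absurd h1 hN
    | alal i k => exact Iff.rfl
    | row j i => exact Iff.rfl
    | lo j i => exact Iff.rfl
    | hi j i =>
      simp only [e1, e2] at h1 h2 ⊢
      have hnp : (nx j) ≠ p := fun h => hp (h ▸ h1)
      have hnt : (nx j) ≠ t := fun h => ht (h ▸ h1)
      have hnp' : (nx j).val ≠ p.val := fun h => hnp (Fin.ext h)
      have hnt' : (nx j).val ≠ t.val := fun h => hnt (Fin.ext h)
      have hjj := j.isLt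
      rcases nx_val j with ⟨_, h⟩ | ⟨_, h⟩ <;> omega
    | sp j =>
      simp only [e1, e2] at h1 h2 ⊢
      have hnp' : (nx j).val ≠ p.val := fun h => hp ((Fin.ext h : nx j = p) ▸ h2)
      have hnt' : (nx j).val ≠ t.val := fun h => ht ((Fin.ext h : nx j = t) ▸ h2)
      have hnp2 : j.val ≠ p.val := fun h => hp ((Fin.ext h : j = p) ▸ h1)
      have hnt2 : j.val ≠ t.val := fun h => ht ((Fin.ext h : j = t) ▸ h1)
      have hjj := j.isLt
      rcases nx_val j with ⟨_, h⟩ | ⟨_, h⟩ <;> omega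
    | lf j => exact absurd h1 hN
    | rt j => exact absurd h1 hN

/-- among three pairings of four points of a circle one is crossing -/
theorem four_points {s p r t : ℕ} (h4 : p ≠ r)
    (h5 : p ≠ t) (h6 : r ≠ t)
    (a1 : (min p r ≤ s ∧ s < max p r) ↔ (min p r ≤ t ∧ t < max p r))
    (a2 : (min p t ≤ s ∧ s < max p t) ↔ (min p t ≤ r ∧ r < max p t))
    (a3 : (min r t ≤ s ∧ s < max r t) ↔ (min r t ≤ p ∧ p < max r t)) : False := by
  omega

/-- removing a hub `z p` and breaking level `β` separates the necklace -/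
theorem sep_level {S : Set (GV n q)} (hS : ConnE E' S) (hN : GV.a ∉ S) {p β : Fin (n + 6)}
    (hp : GV.z p ∉ S) (hsp : GE.sp β ∉ E')
    (hrow : ∀ i, GE.row β i ∈ E' → ¬ (e1 (GE.row β i : GE n q m) ∈ S ∧
      e2 (GE.row β i : GE n q m) ∈ S))
    {s s' : Fin (n + 6)} (hs : GV.z s ∈ S) (hs' : GV.z s' ∈ S) :
    (p.val ≤ β.val → ((p.val ≤ s.val ∧ s.val ≤ β.val) ↔ (p.val ≤ s'.val ∧ s'.val ≤ β.val))) ∧
    (β.val < p.val → ((β.val < s.val ∧ s.val < p.val) ↔ (β.val < s'.val ∧ s'.val < p.val))) := by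
  have hpp := p.isLt
  have hββ := β.isLt
  constructor
  · intro hpβ
    have key := hS.color (fun v => match v with
      | .z x => p.val ≤ x.val ∧ x.val ≤ β.val
      | .u j i => (p.val ≤ j.val ∧ j.val < β.val) ∨ (j.val = β.val ∧ i.val % 2 = 1)
      | _ => False) ?_ hs hs'
    · exact key
    · intro e he h1 h2
      cases e with
      | aal i k => exact absurd h1 hN
      | alal i k => exact Iff.rfl
      | row j i =>
        by_cases hj : j = β
        · subst hj
          exact absurd ⟨h1, h2⟩ (hrow i he)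
        · have hj' : j.val ≠ β.val := fun h => hj (Fin.ext h)
          simp only [e1, e2]
          omega
      | lo j i =>
        simp only [e1, e2] at h1 h2 ⊢
        omega
      | hi j i =>
        simp only [e1, e2] at h1 h2 ⊢
        have hnp' : (nx j).val ≠ p.val := fun h => hp ((Fin.ext h : nx j = p) ▸ h1)
        have hjj := j.isLt
        rcases nx_val j with ⟨_, h⟩ | ⟨_, h⟩ <;> omega
      | sp j =>
        simp only [e1, e2] at h1 h2 ⊢
        have hnp' : (nx j).val ≠ p.val := fun h => hp ((Fin.ext h : nx j = p) ▸ h2)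
        have hnp2 : j.val ≠ p.val := fun h => hp ((Fin.ext h : j = p) ▸ h1)
        have hjb : j.val ≠ β.val := by
          intro h
          have : j = β := Fin.ext h
          subst this
          exact hsp he
        have hjj := j.isLt
        rcases nx_val j with ⟨_, h⟩ | ⟨_, h⟩ <;> omega
      | lf j => exact absurd h1 hN
      | rt j => exact absurd h1 hN
  · intro hpβ
    have key := hS.color (fun v => match v with
      | .z x => β.val < x.val ∧ x.val < p.val
      | .u j i => (β.val < j.val ∧ j.val < p.val) ∨ (j.val = β.val ∧ i.val % 2 = 0)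
      | _ => False) ?_ hs hs'
    · exact key
    · intro e he h1 h2
      cases e with
      | aal i k => exact absurd h1 hN
      | alal i k => exact Iff.rfl
      | row j i =>
        by_cases hj : j = β
        · subst hj
          exact absurd ⟨h1, h2⟩ (hrow i he)
        · have hj' : j.val ≠ β.val := fun h => hj (Fin.ext h)
          simp only [e1, e2]
          omega
      | lo j i =>
        simp only [e1, e2] at h1 h2 ⊢
        omega
      | hi j i =>
        simp only [e1, e2] at h1 h2 ⊢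
        have hnp' : (nx j).val ≠ p.val := fun h => hp ((Fin.ext h : nx j = p) ▸ h1)
        have hjj := j.isLt
        rcases nx_val j with ⟨_, h⟩ | ⟨_, h⟩ <;> omega
      | sp j =>
        simp only [e1, e2] at h1 h2 ⊢
        have hnp' : (nx j).val ≠ p.val := fun h => hp ((Fin.ext h : nx j = p) ▸ h2)
        have hnp2 : j.val ≠ p.val := fun h => hp ((Fin.ext h : j = p) ▸ h1)
        have hjb : j.val ≠ β.val := by
          intro h
          have : j = β := Fin.ext h
          subst this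
          exact hsp he
        have hjj := j.isLt
        rcases nx_val j with ⟨_, h⟩ | ⟨_, h⟩ <;> omega
      | lf j => exact absurd h1 hN
      | rt j => exact absurd h1 hN

/-! ### hub-free sets -/

/-- a connected hub-free set in the necklace lies in one row -/
theorem row_of_HF {S : Set (GV n q)} (hS : ConnE E' S) (hN : Nk S) (hF : HF S) :
    ∃ j, ∀ v ∈ S, ∃ i, v = GV.u j i := by
  obtain ⟨x, hx⟩ := hS.1
  have hx' : ∃ j i, x = GV.u j i := by
    cases x with
    | a => exact absurd hx hN.1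
    | al i => exact absurd hx (hN.2 i)
    | z i => exact absurd hx (hF i)
    | u j i => exact ⟨j, i, rfl⟩
  obtain ⟨j, i, rfl⟩ := hx'
  refine ⟨j, fun v hv => ?_⟩
  have key := hS.color (fun v => ∃ i, v = GV.u j i) ?_ hx hv
  · exact key.mp ⟨i, rfl⟩
  · intro e _ h1 h2
    cases e with
    | aal i k => exact absurd h1 hN.1
    | alal i k => exact absurd h1 (hN.2 _)
    | row j' i =>
      simp only [e1, e2, GV.u.injEq, exists_and_left]
      constructor
      · rintro ⟨h, _⟩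
        exact ⟨h, _, rfl⟩
      · rintro ⟨h, _⟩
        exact ⟨h, _, rfl⟩
    | lo j' i => exact absurd h1 (hF _)
    | hi j' i => exact absurd h1 (hF _)
    | sp j' => exact absurd h1 (hF _)
    | lf j' => exact absurd h1 hN.1
    | rt j' => exact absurd h1 hN.1

/-- connected subsets of a row are intervals -/
theorem row_interval {S : Set (GV n q)} (hS : ConnE E' S) {j : Fin (n + 6)}
    (hj : ∀ v ∈ S, ∃ i, v = GV.u j i) {i1 i2 k : Fin (2 * q + 2)} (h1 : GV.u j i1 ∈ S)
    (h2 : GV.u j i2 ∈ S) (hk1 : i1 ≤ k) (hk2 : k ≤ i2) : GV.u j k ∈ S := by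
  by_contra hk
  have hne1 : i1 ≠ k := fun h => hk (h ▸ h1)
  have hne2 : i2 ≠ k := fun h => hk (h ▸ h2)
  have key := hS.color (fun v => match v with
    | .u _ i => i.val < k.val
    | _ => False) ?_ h1 h2
  · simp only at key
    have a1 : i1.val < k.val := lt_of_le_of_ne hk1 (fun h => hne1 (Fin.ext h))
    have a2 : k.val ≤ i2.val := hk2
    omega
  · clear h1 h2
    intro e _ h1 h2
    cases e with
    | aal i l => obtain ⟨i', h⟩ := hj _ h1; simp [e1] at h
    | alal i l => obtain ⟨i', h⟩ := hj _ h1; simp [e1] at h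
    | row j' i =>
      obtain ⟨i', h⟩ := hj _ h1
      simp only [e1, e2] at h h1 h2 ⊢
      obtain ⟨rfl, _⟩ := GV.u.inj h
      have hik : i.val + 1 ≠ k.val := by
        intro h3
        apply hk
        have h4 : (⟨i.val + 1, by omega⟩ : Fin (2 * q + 2)) = k := Fin.ext h3
        rw [← h4]
        exact h2
      omega
    | lo j' i => obtain ⟨i', h⟩ := hj _ h1; simp [e1] at h
    | hi j' i => obtain ⟨i', h⟩ := hj _ h1; simp [e1] at h
    | sp j' => obtain ⟨i', h⟩ := hj _ h1; simp [e1] at h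
    | lf j' => obtain ⟨i', h⟩ := hj _ h1; simp [e1] at h
    | rt j' => obtain ⟨i', h⟩ := hj _ h1; simp [e1] at h

/-- an edge joining two hub-free sets is a row edge -/
theorem joins_row {S T : Set (GV n q)} {e : GE n q m} {j j' : Fin (n + 6)}
    (hS : ∀ v ∈ S, ∃ i, v = GV.u j i) (hT : ∀ v ∈ T, ∃ i, v = GV.u j' i) (h : Joins S T e) :
    ∃ i, e = GE.row j i ∧ j = j' := by
  have hST : (∃ i, e1 e = GV.u j i) ∧ (∃ i, e2 e = GV.u j' i) ∨
      (∃ i, e1 e = GV.u j' i) ∧ (∃ i, e2 e = GV.u j i) := by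
    rcases h with ⟨h1, h2⟩ | ⟨h1, h2⟩
    · exact Or.inl ⟨hS _ h1, hT _ h2⟩
    · exact Or.inr ⟨hT _ h1, hS _ h2⟩
  cases e with
  | row j'' i =>
    rcases hST with ⟨⟨i1, h1⟩, ⟨i2, h2⟩⟩ | ⟨⟨i1, h1⟩, ⟨i2, h2⟩⟩
    · simp only [e1, e2, GV.u.injEq] at h1 h2
      obtain ⟨rfl, _⟩ := h1
      obtain ⟨rfl, _⟩ := h2
      exact ⟨i, rfl, rfl⟩
    · simp only [e1, e2, GV.u.injEq] at h1 h2
      obtain ⟨rfl, _⟩ := h1
      obtain ⟨rfl, _⟩ := h2
      exact ⟨i, rfl, rfl⟩
  | aal i l => simp [e1] at hST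
  | alal i l => simp [e1] at hST
  | lo j' i => simp [e1] at hST
  | hi j' i => simp [e1] at hST
  | sp j' => simp [e1] at hST
  | lf j' => simp [e1] at hST
  | rt j' => simp [e1] at hST

/-- two disjoint connected subsets of rows are joined by at most one edge -/
theorem no_dbl {S T : Set (GV n q)} (hS : ConnE E' S) (hT : ConnE E' T) (hST : Disjoint S T)
    (hNS : Nk S) (hNT : Nk T) (hFS : HF S) (hFT : HF T) (h : Dbl E' S T) : False := by
  obtain ⟨j, hj⟩ := row_of_HF hS hNS hFS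
  obtain ⟨j', hj'⟩ := row_of_HF hT hNT hFT
  obtain ⟨e, _, e', _, hne, h1, h2⟩ := h
  obtain ⟨i, rfl, hjj⟩ := joins_row hj hj' h1
  obtain ⟨i', rfl, _⟩ := joins_row hj hj' h2
  subst hjj
  -- wlog i < i'
  have main : ∀ i i' : Fin (2 * q + 1), i < i' → Joins S T (GE.row j i : GE n q m) →
      Joins S T (GE.row j i' : GE n q m) → False := by
    intro i i' hlt h1 h2
    have hiv : i.val < i'.val := hlt
    let w : Fin (2 * q + 2) := ⟨i.val + 1, by omega⟩
    have inS : GV.u j w ∈ S := by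
      have a1 : ∃ x : Fin (2 * q + 2), x ≤ w ∧ GV.u j x ∈ S := by
        rcases h1 with ⟨h, _⟩ | ⟨_, h⟩
        · exact ⟨⟨i.val, by omega⟩, by simp only [w, Fin.mk_le_mk]; omega, h⟩
        · exact ⟨w, le_rfl, h⟩
      have a2 : ∃ x : Fin (2 * q + 2), w ≤ x ∧ GV.u j x ∈ S := by
        rcases h2 with ⟨h, _⟩ | ⟨_, h⟩
        · exact ⟨⟨i'.val, by omega⟩, by simp only [w, Fin.mk_le_mk]; omega, h⟩
        · exact ⟨⟨i'.val + 1, by omega⟩, by simp only [w, Fin.mk_le_mk]; omega, h⟩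
      obtain ⟨x, hx, hxS⟩ := a1
      obtain ⟨y, hy, hyS⟩ := a2
      exact row_interval hS hj hxS hyS hx hy
    have inT : GV.u j w ∈ T := by
      have a1 : ∃ x : Fin (2 * q + 2), x ≤ w ∧ GV.u j x ∈ T := by
        rcases h1 with ⟨_, h⟩ | ⟨h, _⟩
        · exact ⟨w, le_rfl, h⟩
        · exact ⟨⟨i.val, by omega⟩, by simp only [w, Fin.mk_le_mk]; omega, h⟩
      have a2 : ∃ x : Fin (2 * q + 2), w ≤ x ∧ GV.u j x ∈ T := by
        rcases h2 with ⟨_, h⟩ | ⟨h, _⟩
        · exact ⟨⟨i'.val + 1, by omega⟩, by simp only [w, Fin.mk_le_mk]; omega, h⟩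
        · exact ⟨⟨i'.val, by omega⟩, by simp only [w, Fin.mk_le_mk]; omega, h⟩
      obtain ⟨x, hx, hxS⟩ := a1
      obtain ⟨y, hy, hyS⟩ := a2
      exact row_interval hT hj' hxS hyS hx hy
    exact Set.disjoint_left.mp hST inS inT
  rcases lt_trichotomy i i' with hlt | heq | hlt
  · exact main i i' hlt h1 h2
  · exact hne (by rw [heq])
  · exact main i' i hlt h2 h1

/-- a set with a hub adjacent to a hub-free set in row `j` contains one of the two hubs at row `j` -/
theorem hub_near {S T : Set (GV n q)} (hT : ConnE E' T) (hNT : Nk T) {j : Fin (n + 6)}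
    (hj : ∀ v ∈ S, ∃ i, v = GV.u j i) (hST : Sgl E' S T) {x : Fin (n + 6)} (hx : GV.z x ∈ T) :
    GV.z j ∈ T ∨ GV.z (nx j) ∈ T := by
  by_contra hcon
  push Not at hcon
  obtain ⟨hz1, hz2⟩ := hcon
  have hcol : ∀ y ∈ T, ¬ ∃ i, y = GV.u j i := by
    intro y hy hyi
    have key := hT.color (fun v => ∃ i, v = GV.u j i) ?_ hx hy
    · obtain ⟨i, hi⟩ := key.mpr hyi
      cases hi
    · intro e _ h1 h2
      cases e with
      | aal i k => exact absurd h1 hNT.1
      | alal i k => exact absurd h1 (hNT.2 _)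
      | row j' i =>
        simp only [e1, e2, GV.u.injEq, exists_and_left]
        constructor
        · rintro ⟨h, _⟩
          exact ⟨h, _, rfl⟩
        · rintro ⟨h, _⟩
          exact ⟨h, _, rfl⟩
      | lo j' i =>
        simp only [e1, e2] at h1 h2 ⊢
        constructor
        · rintro ⟨i', h⟩; cases h
        · rintro ⟨i', h⟩
          obtain ⟨rfl, _⟩ := GV.u.inj h
          exact absurd h1 hz1
      | hi j' i =>
        simp only [e1, e2] at h1 h2 ⊢
        constructor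
        · rintro ⟨i', h⟩; cases h
        · rintro ⟨i', h⟩
          obtain ⟨rfl, _⟩ := GV.u.inj h
          exact absurd h1 hz2
      | sp j' =>
        simp only [e1, e2]
        constructor
        · rintro ⟨i', h⟩; cases h
        · rintro ⟨i', h⟩; cases h
      | lf j' => exact absurd h1 hNT.1
      | rt j' => exact absurd h1 hNT.1
  obtain ⟨e, _, he⟩ := hST
  rcases he with ⟨h1, h2⟩ | ⟨h1, h2⟩
  · obtain ⟨i, hi⟩ := hj _ h1
    cases e with
    | row j' i' =>
      simp only [e1, GV.u.injEq] at hi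
      obtain ⟨rfl, _⟩ := hi
      exact hcol _ h2 ⟨_, rfl⟩
    | aal i l => simp [e1] at hi
    | alal i l => simp [e1] at hi
    | lo j' i => simp [e1] at hi
    | hi j' i => simp [e1] at hi
    | sp j' => simp [e1] at hi
    | lf j' => simp [e1] at hi
    | rt j' => simp [e1] at hi
  · obtain ⟨i, hi⟩ := hj _ h2
    cases e with
    | row j' i' =>
      simp only [e2, GV.u.injEq] at hi
      obtain ⟨rfl, _⟩ := hi
      exact hcol _ h1 ⟨_, rfl⟩
    | aal i l => simp [e2] at hi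
    | alal i l => simp [e2] at hi
    | lo j' i' =>
      simp only [e2, GV.u.injEq] at hi
      obtain ⟨rfl, _⟩ := hi
      exact hz1 h1
    | hi j' i' =>
      simp only [e2, GV.u.injEq] at hi
      obtain ⟨rfl, _⟩ := hi
      exact hz2 h1
    | sp j' => simp [e2] at hi
    | lf j' => exact hNT.1 h1
    | rt j' => exact hNT.1 h1

/-- a hub-free set has at most two doubly adjacent neighbours -/
theorem no_three {S T1 T2 T3 : Set (GV n q)} (hS : ConnE E' S) (hNS : Nk S) (hFS : HF S)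
    (h1 : ConnE E' T1) (h2 : ConnE E' T2) (h3 : ConnE E' T3) (n1 : Nk T1) (n2 : Nk T2)
    (n3 : Nk T3) (d1 : Disjoint S T1) (d2 : Disjoint S T2) (d3 : Disjoint S T3)
    (d12 : Disjoint T1 T2) (d13 : Disjoint T1 T3) (d23 : Disjoint T2 T3)
    (a1 : Dbl E' S T1) (a2 : Dbl E' S T2) (a3 : Dbl E' S T3) : False := by
  obtain ⟨j, hj⟩ := row_of_HF hS hNS hFS
  have key : ∀ T, ConnE E' T → Nk T → Disjoint S T → Dbl E' S T →
      GV.z j ∈ T ∨ GV.z (nx j) ∈ T := by
    intro T hT hNT hd ha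
    have hx : ∃ x, GV.z x ∈ T := by
      by_contra hcon
      push Not at hcon
      exact no_dbl hS hT hd hNS hNT hFS hcon ha
    obtain ⟨x, hx⟩ := hx
    exact hub_near hT hNT hj ha.sgl hx
  have k1 := key T1 h1 n1 d1 a1
  have k2 := key T2 h2 n2 d2 a2
  have k3 := key T3 h3 n3 d3 a3
  rcases k1 with k1 | k1 <;> rcases k2 with k2 | k2 <;> rcases k3 with k3 | k3 <;>
    first
    | exact Set.disjoint_left.mp d12 k1 k2
    | exact Set.disjoint_left.mp d13 k1 k3
    | exact Set.disjoint_left.mp d23 k2 k3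

/-- the doubled fan is not a minor of the necklace -/
theorem no_fan {C : Set (GV n q)} {V : Fin 5 → Set (GV n q)} (hC : ConnE E' C)
    (hV : ∀ i, ConnE E' (V i)) (nC : Nk C) (nV : ∀ i, Nk (V i)) (dCV : ∀ i, Disjoint C (V i))
    (dVV : ∀ i j, i ≠ j → Disjoint (V i) (V j)) (aCV : ∀ i, Dbl E' C (V i))
    (aVV : ∀ i : Fin 4, Dbl E' (V i.castSucc) (V i.succ)) : False := by
  have hubC : ∃ x, GV.z x ∈ C := by
    by_contra hcon
    push Not at hcon
    exact no_three hC nC hcon (hV 0) (hV 1) (hV 2) (nV 0) (nV 1) (nV 2) (dCV 0) (dCV 1) (dCV 2)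
      (dVV 0 1 (by decide)) (dVV 0 2 (by decide)) (dVV 1 2 (by decide)) (aCV 0) (aCV 1) (aCV 2)
  have hub1 : ∃ x, GV.z x ∈ V 1 := by
    by_contra hcon
    push Not at hcon
    exact no_three (hV 1) (nV 1) hcon hC (hV 0) (hV 2) nC (nV 0) (nV 2) (dCV 1).symm
      (dVV 1 0 (by decide)) (dVV 1 2 (by decide)) (dCV 0) (dCV 2) (dVV 0 2 (by decide))
      (aCV 1).symm (aVV 0).symm (aVV 1)
  have hub2 : ∃ x, GV.z x ∈ V 2 := by
    by_contra hcon
    push Not at hcon
    exact no_three (hV 2) (nV 2) hcon hC (hV 1) (hV 3) nC (nV 1) (nV 3) (dCV 2).symm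
      (dVV 2 1 (by decide)) (dVV 2 3 (by decide)) (dCV 1) (dCV 3) (dVV 1 3 (by decide))
      (aCV 2).symm (aVV 1).symm (aVV 2)
  have hub3 : ∃ x, GV.z x ∈ V 3 := by
    by_contra hcon
    push Not at hcon
    exact no_three (hV 3) (nV 3) hcon hC (hV 2) (hV 4) nC (nV 2) (nV 4) (dCV 3).symm
      (dVV 3 2 (by decide)) (dVV 3 4 (by decide)) (dCV 2) (dCV 4) (dVV 2 4 (by decide))
      (aCV 3).symm (aVV 2).symm (aVV 3)
  obtain ⟨s, hs⟩ := hubC
  obtain ⟨p, hp⟩ := hub1
  obtain ⟨r, hr⟩ := hub2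
  obtain ⟨t, ht⟩ := hub3
  have out : ∀ {i j : Fin 5} {x : Fin (n + 6)}, i ≠ j → GV.z x ∈ V i → GV.z x ∉ C ∪ V j := by
    intro i j x hij hx hcon
    rcases hcon with h | h
    · exact Set.disjoint_left.mp (dCV i) h hx
    · exact Set.disjoint_left.mp (dVV i j hij) hx h
  have un : ∀ i, ConnE E' (C ∪ V i) := fun i => hC.union (hV i) (aCV i).sgl
  have nu : ∀ i, Nk (C ∪ V i) := fun i => nC.union (nV i)
  have hne : ∀ {i j : Fin 5} {x y : Fin (n + 6)}, i ≠ j → GV.z x ∈ V i → GV.z y ∈ V j →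
      x.val ≠ y.val := by
    intro i j x y hij hx hy h
    have : x = y := Fin.ext h
    subst this
    exact Set.disjoint_left.mp (dVV i j hij) hx hy
  exact four_points (hne (by decide) hp hr) (hne (by decide) hp ht) (hne (by decide) hr ht)
    (sep_hubs (un 3) (nu 3).1 (out (by decide) hp) (out (by decide) hr) (Or.inl hs) (Or.inr ht))
    (sep_hubs (un 2) (nu 2).1 (out (by decide) hp) (out (by decide) ht) (Or.inl hs) (Or.inr hr))
    (sep_hubs (un 1) (nu 1).1 (out (by decide) hr) (out (by decide) ht) (Or.inl hs) (Or.inr hp))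

end Pool.Agent.Helper61.EP
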